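import Mathlib

/-! A combinatorial lemma on pieces, for products of abelian varieties of type III. -/

open Finset

namespace Pool.Agent.Helper71

section aux

variable {Γ U : Type*} [Group Γ] [MulAction Γ U]

lemma exists_sign (act : Γ → U × Bool → U × Bool)
    (act_mul : ∀ g h x, act (g * h) x = act g (act h x)) (act_one : ∀ x, act 1 x = x)
    (act_fst : ∀ g x, (act g x).1 = g • x.1) :
    ∃ s : Γ → U → Bool, ∀ g u b, act g (u, b) = (g • u, xor b (s g u)) := by
  refine ⟨fun g u => !(act g (u, true)).2, fun g u b => ?_⟩
  have h1 := act_fst g (u, b)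
  have h2 := act_fst g (u, true)
  cases b with
  | true =>
    refine Prod.ext h1 ?_
    simp
  | false =>
    refine Prod.ext h1 ?_
    simp only [Bool.false_bne]
    by_contra h
    have h3 : (act g (u, false)).2 = (act g (u, true)).2 := by
      cases h4 : (act g (u, false)).2 <;> cases h5 : (act g (u, true)).2 <;> simp_all
    have h6 : act g (u, false) = act g (u, true) := Prod.ext (h1.trans h2.symm) h3
    have h7 : act g⁻¹ (act g (u, false)) = act g⁻¹ (act g (u, true)) := by rw [h6]
    rw [← act_mul, ← act_mul, inv_mul_cancel, act_one, act_one] at h7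
    simp at h7

lemma eq_of_false_eq_xor {a b : Bool} (h : false = xor a b) : b = a := by
  cases a <;> cases b <;> simp_all

lemma eq_not_of_ne {a b : Bool} (h : ¬ b = a) : b = !a := by
  cases a <;> cases b <;> simp_all

lemma cyc [DecidableEq U] (F : Finset U) (c : U → U) (hcc : ∀ u, c (c u) = u)
    (hc : ∀ u, c u ≠ u) (hgc : ∀ (g : Γ) u, g • c u = c (g • u)) {p : ℕ} (hp : p.Prime)
    (hp2 : p ≠ 2) (hF : F.card = 2 * p) (h : Γ) (hhF : ∀ v ∈ F, h • v ∈ F)
    (hcF : ∀ v ∈ F, c v ∈ F) (hpow : ∀ v ∈ F, h ^ p • v = v) {v0 : U} (hv0 : v0 ∈ F)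
    (hne : h • v0 ≠ v0) : ∀ v ∈ F, ∃ i : ℕ, h ^ i • v0 = v ∨ h ^ i • v0 = c v := by
  have hper : ∀ n : ℕ, h ^ n • v0 = v0 → p ∣ n := by
    intro n hn
    by_contra hpn
    have hcop : Nat.Coprime n p := ((Nat.Prime.coprime_iff_not_dvd hp).mpr hpn).symm
    have h1 := MulAction.pow_smul_eq_iff_period_dvd (m := h) (a := v0) (n := n)
    have h2 := MulAction.pow_smul_eq_iff_period_dvd (m := h) (a := v0) (n := p)
    have h3 : MulAction.period h v0 ∣ Nat.gcd n p := Nat.dvd_gcd (h1.mp hn) (h2.mp (hpow v0 hv0))
    rw [hcop] at h3
    have h4 := MulAction.pow_smul_eq_iff_period_dvd (m := h) (a := v0) (n := 1)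
    apply hne
    have := h4.mpr h3
    simpa using this
  have hmem : ∀ i : ℕ, h ^ i • v0 ∈ F := by
    intro i
    induction i with
    | zero => simpa using hv0
    | succ i ih => rw [pow_succ', mul_smul]; exact hhF _ ih
  have hinj : ∀ i j : ℕ, i < p → j < p → h ^ i • v0 = h ^ j • v0 → i = j := by
    intro i j hi hj hij
    wlog hle : i ≤ j generalizing i j
    · exact (this j i hj hi hij.symm (by omega)).symm
    have h1 : h ^ (j - i) • v0 = v0 := by
      have h2 : h ^ j = h ^ i * h ^ (j - i) := by rw [← pow_add]; congr 1; omega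
      rw [h2, mul_smul] at hij
      exact (smul_left_cancel _ hij).symm
    have h3 := hper _ h1
    have h4 : j - i = 0 := Nat.eq_zero_of_dvd_of_lt h3 (by omega)
    omega
  have hdisj : ∀ i j : ℕ, i < p → j < p → h ^ i • v0 ≠ c (h ^ j • v0) := by
    intro i j hi hj hij
    -- h ^ (i + p - j) • v0 = c v0
    have h1 : h ^ (i + (p - j)) • v0 = c v0 := by
      rw [add_comm, pow_add, mul_smul, hij, hgc, ← mul_smul, ← pow_add,
        show p - j + j = p by omega, hpow v0 hv0]
    have h2 : h ^ ((i + (p - j)) + (i + (p - j))) • v0 = v0 := by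
      rw [pow_add, mul_smul, h1, hgc, h1, hcc]
    have h3 := hper _ h2
    have h4 : p ∣ i + (p - j) := by
      rw [← two_mul] at h3
      rcases hp.dvd_mul.mp h3 with h5 | h5
      · exact absurd ((Nat.prime_dvd_prime_iff_eq hp Nat.prime_two).mp h5) hp2
      · exact h5
    obtain ⟨k, hk⟩ := h4
    rw [hk, pow_mul] at h1
    have h6 : ∀ k : ℕ, (h ^ p) ^ k • v0 = v0 := by
      intro k
      induction k with
      | zero => simp
      | succ k ih => rw [pow_succ, mul_smul, hpow v0 hv0, ih]
    rw [h6] at h1
    exact hc v0 h1.symm
  intro v hv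
  have himg : ((univ : Finset (Fin p × Bool)).image fun x => if x.2 then c (h ^ (x.1 : ℕ) • v0)
      else h ^ (x.1 : ℕ) • v0) = F := by
    apply Finset.eq_of_subset_of_card_le
    · intro y hy
      obtain ⟨x, -, hx⟩ := Finset.mem_image.mp hy
      rw [← hx]
      split_ifs
      · exact hcF _ (hmem _)
      · exact hmem _
    · rw [Finset.card_image_of_injective, hF]
      · simp [mul_comm]
      · rintro ⟨⟨i, hi⟩, b⟩ ⟨⟨j, hj⟩, b'⟩ hij
        cases b <;> cases b' <;> simp only [Bool.false_eq_true, if_false, if_true] at hij
        · have := hinj i j hi hj hij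
          subst this; rfl
        · exact absurd hij (hdisj i j hi hj)
        · exact absurd hij.symm (hdisj j i hj hi)
        · have h1 : h ^ i • v0 = h ^ j • v0 := by
            have := congrArg c hij
            rwa [hcc, hcc] at this
          have := hinj i j hi hj h1
          subst this; rfl
  rw [← himg] at hv
  obtain ⟨x, -, hx⟩ := Finset.mem_image.mp hv
  refine ⟨x.1, ?_⟩
  split_ifs at hx with hb
  · right
    rw [← hx, hcc]
  · left
    exact hx

lemma exists_cyc [DecidableEq U] (F : Finset U) {p : ℕ} (hp : p.Prime)
    (hp2 : p ≠ 2) (hF : F.card = 2 * p) (u : U)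
    (hFF : ∀ v, v ∈ F ↔ ∃ g : Γ, g • u = v) :
    ∃ g : Γ, (∀ v ∈ F, g ^ p • v = v) ∧ ∃ v0 ∈ F, g ^ 2 • v0 ≠ v0 := by
  classical
  let X := MulAction.orbit Γ u
  have hXF : X = (F : Set U) := by
    ext v
    rw [Finset.mem_coe, hFF v]
    rfl
  have : Finite X := by rw [hXF]; exact F.finite_toSet
  have hcard : Nat.card X = 2 * p := by
    rw [hXF, ← hF]; simp
  let φ : Γ →* Equiv.Perm X := MulAction.toPermHom Γ X
  let G : Subgroup (Equiv.Perm X) := φ.range
  have : Finite G := inferInstance
  let x0 : X := ⟨u, MulAction.mem_orbit_self u⟩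
  have horb : MulAction.orbit G x0 = Set.univ := by
    ext x
    simp only [Set.mem_univ, iff_true]
    obtain ⟨v, hv⟩ := x
    obtain ⟨g, hg⟩ := hv
    refine ⟨⟨φ g, g, rfl⟩, ?_⟩
    apply Subtype.ext
    exact hg
  have hdvd : 2 * p ∣ Nat.card G := by
    have h1 := MulAction.index_stabilizer G x0
    rw [horb, Set.ncard_univ, hcard] at h1
    rw [← h1]
    exact Subgroup.index_dvd_card _
  have : Fact p.Prime := ⟨hp⟩
  obtain ⟨σ, hσ⟩ := exists_prime_orderOf_dvd_card' (G := G) p ((Dvd.intro_left 2 rfl).trans hdvd)
  obtain ⟨⟨_, g, rfl⟩, hg⟩ : ∃ τ : G, τ = σ := ⟨σ, rfl⟩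
  have hg' : orderOf (φ g) = p := by
    rw [← hσ, ← hg]
    exact (Subgroup.orderOf_coe (H := G) ⟨φ g, g, rfl⟩)
  have hact : ∀ (k : ℕ) (v : U) (hv : v ∈ X), ((φ g ^ k) ⟨v, hv⟩ : X).1 = g ^ k • v := by
    intro k v hv
    rw [← map_pow]
    rfl
  refine ⟨g, fun v hv => ?_, ?_⟩
  · have hvX : v ∈ X := by rw [hXF]; exact hv
    rw [← hact p v hvX, ← hg', pow_orderOf_eq_one]
    rfl
  · by_contra hcon
    push Not at hcon
    have h2 : φ g ^ 2 = 1 := by
      ext ⟨v, hv⟩
      rw [hact 2 v hv]
      have : v ∈ F := by rw [hXF] at hv; exact hv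
      rw [hcon v this]
      rfl
    have h3 := orderOf_dvd_of_pow_eq_one h2
    rw [hg'] at h3
    exact hp2 ((Nat.prime_dvd_prime_iff_eq hp Nat.prime_two).mp h3)

end aux

theorem piece_comb {Γ U J : Type*} [Group Γ] [MulAction Γ U] [Fintype U] [DecidableEq U]
    [DecidableEq J] (f : U → J) (hf : ∀ (g : Γ) u, f (g • u) = f u)
    (htr : ∀ u w, f u = f w → ∃ g : Γ, g • u = w) (c : U → U) (hcc : ∀ u, c (c u) = u)
    (hc : ∀ u, c u ≠ u) (hfc : ∀ u, f (c u) = f u) (hgc : ∀ (g : Γ) u, g • c u = c (g • u))
    (act : Γ → U × Bool → U × Bool) (act_mul : ∀ g h x, act (g * h) x = act g (act h x))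
    (act_one : ∀ x, act 1 x = x) (act_fst : ∀ g x, (act g x).1 = g • x.1)
    (L : U × Bool → U × Bool → Prop) (hL : Equivalence L)
    (L_act : ∀ g x y, L x y → L (act g x) (act g y)) (L_type : ∀ x y, L x y → x.2 = y.2)
    (L_c : ∀ u b, L (u, b) (c u, b))
    (F3 : ∀ u w, L (u, true) (w, true) → L (u, false) (w, false) → w = u ∨ w = c u)
    (F5 : ∀ u, ∃ g, (act g (u, true)).2 = false)
    (hN : ∀ u, (univ.filter fun w => f w = f u).card = 2 ∨
      ∃ p : ℕ, p.Prime ∧ (univ.filter fun w => f w = f u).card = 2 * p)
    (hNN : ∀ u w, f u ≠ f w → let N := fun x => (univ.filter fun y => f y = f x).card;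
      (N u = 2 ∧ N w = 2) ∨ (N u ≠ N w ∧ N u ≠ 2 * N w ∧ N w ≠ 2 * N u)) :
    ∀ x y, L x y → y.1 = x.1 ∨ y.1 = c x.1 := by
  classical
  obtain ⟨s, hs⟩ := exists_sign act act_mul act_one act_fst
  have hcinj : ∀ {a b : U}, c a = c b → a = b := fun {a b} h => by
    have := congrArg c h
    rwa [hcc, hcc] at this
  have s_mul : ∀ g h u, s (g * h) u = xor (s h u) (s g (h • u)) := by
    intro g h u
    have h1 := act_mul g h (u, false)
    rw [hs, hs, hs] at h1
    have h2 := congrArg Prod.snd h1
    simpa using h2
  have link : ∀ g u w b, L (u, b) (w, b) →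
      s g u = s g w ∧ L (g • u, xor b (s g u)) (g • w, xor b (s g u)) := by
    intro g u w b h
    have h1 := L_act g _ _ h
    rw [hs, hs] at h1
    have h2 := L_type _ _ h1
    have h3 : s g u = s g w := by simpa using h2
    refine ⟨h3, ?_⟩
    rw [← h3] at h1
    exact h1
  have F5' : ∀ u, ∃ g, s g u = true := by
    intro u
    obtain ⟨g, hg⟩ := F5 u
    refine ⟨g, ?_⟩
    rw [hs] at hg
    simpa using hg
  have F3' : ∀ u w b, L (u, b) (w, b) → L (u, !b) (w, !b) → w = u ∨ w = c u := by
    intro u w b h1 h2
    cases b
    · exact F3 u w h2 h1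
    · exact F3 u w h1 h2
  have Lc' : ∀ u w b, L (u, b) (w, b) → L (u, b) (c w, b) := fun u w b h =>
    hL.trans h (L_c w b)
  have Lcc : ∀ u w b, L (u, b) (w, b) → L (c u, b) (w, b) := fun u w b h =>
    hL.trans (hL.symm (L_c u b)) h
  -- same fibre
  have same : ∀ u w b, f u = f w → L (u, b) (w, b) → w = u ∨ w = c u := by
    intro u w b huw hLuw
    by_contra hcon
    push Not at hcon
    obtain ⟨hwu, hwcu⟩ := hcon
    set F := univ.filter fun v => f v = f u with hFdef
    have memF : ∀ v, v ∈ F ↔ f v = f u := fun v => by simp [hFdef]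
    have hcwu : c w ≠ u := fun h => hwcu (hcinj (by rw [h, hcc]))
    have hcwcu : c w ≠ c u := fun h => hwu (hcinj h)
    have hsub : ({u, c u, w, c w} : Finset U) ⊆ F := by
      intro v hv
      simp only [mem_insert, mem_singleton] at hv
      rw [memF]
      rcases hv with rfl | rfl | rfl | rfl
      · rfl
      · exact hfc u
      · exact huw.symm
      · rw [hfc]; exact huw.symm
    have hcard4 : ({u, c u, w, c w} : Finset U).card = 4 := by
      rw [card_insert_of_notMem, card_insert_of_notMem, card_insert_of_notMem, card_singleton]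
      · simp only [mem_singleton]; exact (hc w).symm
      · simp only [mem_insert, mem_singleton, not_or]
        exact ⟨hwcu.symm, hcwcu.symm⟩
      · simp only [mem_insert, mem_singleton, not_or]
        exact ⟨(hc u).symm, hwu.symm, hcwu.symm⟩
    have h4le : 4 ≤ F.card := by
      rw [← hcard4]; exact card_le_card hsub
    rcases hN u with h2 | ⟨p, hp, hFp⟩
    · have : F.card = 2 := h2
      omega
    have hFp' : F.card = 2 * p := hFp
    have hgF : ∀ (g : Γ) v, v ∈ F → g • v ∈ F := by
      intro g v hv
      rw [memF] at hv ⊢
      rw [hf, hv]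
    have hcF : ∀ v ∈ F, c v ∈ F := by
      intro v hv
      rw [memF] at hv ⊢
      rw [hfc, hv]
    by_cases hp2 : p = 2
    · -- four elements
      have hF4 : ({u, c u, w, c w} : Finset U) = F := by
        apply Finset.eq_of_subset_of_card_le hsub
        rw [hcard4, hFp', hp2]
      obtain ⟨g, hg⟩ := F5' u
      have h1 := (link g u w b hLuw).2
      rw [hg] at h1
      have h1' : L (g • u, !b) (g • w, !b) := by simpa using h1
      have huF : u ∈ F := by rw [memF]
      have hwF : w ∈ F := by rw [memF]; exact huw.symm
      have hgu : g • u ∈ F := hgF g u huF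
      have hgw : g • w ∈ F := hgF g w hwF
      have hgwu : g • w ≠ g • u := fun h => hwu (smul_left_cancel g h)
      have hgwcu : g • w ≠ c (g • u) := fun h => hwcu (smul_left_cancel g (by rw [h, hgc]))
      rw [← hF4] at hgu hgw
      simp only [mem_insert, mem_singleton] at hgu hgw
      have key : L (u, !b) (w, !b) := by
        rcases hgu with e1 | e1 | e1 | e1 <;> rcases hgw with e2 | e2 | e2 | e2 <;>
          rw [e1, e2] at h1' hgwu hgwcu <;> try simp [hcc] at hgwu hgwcu
        · exact h1'
        · have := Lc' _ _ _ h1'; rwa [hcc] at this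
        · have := Lcc _ _ _ h1'; rwa [hcc] at this
        · have := Lcc _ _ _ (Lc' _ _ _ h1'); rwa [hcc, hcc] at this
        · exact hL.symm h1'
        · have := Lc' _ _ _ h1'; rw [hcc] at this; exact hL.symm this
        · have := Lcc _ _ _ h1'; rw [hcc] at this; exact hL.symm this
        · have := Lcc _ _ _ (Lc' _ _ _ h1'); rw [hcc, hcc] at this; exact hL.symm this
      rcases F3' u w b hLuw key with h | h
      · exact hwu h
      · exact hwcu h
    · -- odd prime
      have hFF : ∀ v, v ∈ F ↔ ∃ g : Γ, g • u = v := by
        intro v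
        rw [memF]
        constructor
        · intro h; exact htr u v h.symm
        · rintro ⟨g, rfl⟩; exact hf g u
      obtain ⟨g, hgp, v0, hv0, hne⟩ := exists_cyc F hp hp2 hFp' u hFF
      have huF : u ∈ F := by rw [memF]
      have hwF : w ∈ F := by rw [memF]; exact huw.symm
      -- powers of g
      have hgpk : ∀ (k : ℕ) v, v ∈ F → (g ^ p) ^ k • v = v := by
        intro k v hv
        induction k with
        | zero => simp
        | succ k ih => rw [pow_succ, mul_smul, hgp v hv, ih]
      have h2p : ∀ v ∈ F, (g ^ 2) ^ p • v = v := by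
        intro v hv
        rw [← pow_mul, mul_comm, pow_mul]
        exact hgpk 2 v hv
      have hcy := cyc F c hcc hc hgc hp hp2 hFp' (g ^ 2) (fun v hv => hgF _ v hv) hcF h2p hv0 hne
      -- find m
      obtain ⟨m, hm⟩ : ∃ m : ℕ, (g ^ 2) ^ m • u = w ∨ (g ^ 2) ^ m • u = c w := by
        obtain ⟨i, hi⟩ := hcy u huF
        obtain ⟨j, hj⟩ := hcy w hwF
        -- u = (g^2)^i v0 or c of it
        have hrev : ∀ (i j : ℕ), ∃ m : ℕ, ∀ v ∈ F, (g ^ 2) ^ m • ((g ^ 2) ^ i • v) = (g ^ 2) ^ j • v := by
          intro i j
          refine ⟨(p * i - i) + j, fun v hv => ?_⟩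
          have hpi : i ≤ p * i := Nat.le_mul_of_pos_left i hp.pos
          rw [← mul_smul, ← pow_add, show p * i - i + j + i = j + p * i by omega, pow_add,
            mul_smul]
          congr 1
          rw [pow_mul]
          have : ∀ k : ℕ, ((g ^ 2) ^ p) ^ k • v = v := by
            intro k
            induction k with
            | zero => simp
            | succ k ih => rw [pow_succ, mul_smul, h2p v hv, ih]
          exact this i
        obtain ⟨m, hm⟩ := hrev i j
        refine ⟨m, ?_⟩
        have h0 := hm v0 hv0
        rcases hi with hi | hi <;> rcases hj with hj | hj <;> rw [hi, hj] at h0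
        · left; exact h0
        · right; exact h0
        · rw [hgc] at h0
          right
          have := congrArg c h0
          rwa [hcc] at this
        · rw [hgc] at h0
          left
          exact hcinj h0
      -- replace w
      obtain ⟨w', hw', hLw', hw'u, hw'cu⟩ : ∃ w', (g ^ 2) ^ m • u = w' ∧ L (u, b) (w', b) ∧
          w' ≠ u ∧ w' ≠ c u := by
        rcases hm with hm | hm
        · exact ⟨w, hm, hLuw, hwu, hwcu⟩
        · exact ⟨c w, hm, Lc' _ _ _ hLuw, hcwu, hcwcu⟩
      set h := (g ^ 2) ^ m with hh
      have hhp : ∀ v ∈ F, h ^ p • v = v := by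
        intro v hv
        rw [hh, ← pow_mul, mul_comm m p, pow_mul]
        have : ∀ k : ℕ, ((g ^ 2) ^ p) ^ k • v = v := by
          intro k
          induction k with
          | zero => simp
          | succ k ih => rw [pow_succ, mul_smul, h2p v hv, ih]
        exact this m
      have hhs : ∀ v ∈ F, s (h ^ p) v = false := by
        intro v hv
        have e : h ^ p = (g ^ p) ^ m * (g ^ p) ^ m := by
          rw [hh, ← pow_mul, ← pow_mul, ← pow_mul, ← pow_add]
          congr 1
          ring
        rw [e, s_mul, hgpk m v hv, Bool.xor_self]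
      have hcy' := cyc F c hcc hc hgc hp hp2 hFp' h (fun v hv => hgF _ v hv) hcF hhp huF
        (by rw [hw']; exact hw'u)
      -- chain
      have hchain : ∀ k : ℕ, ∃ bk : Bool, L (h ^ k • u, bk) (h ^ (k + 1) • u, bk) ∧
          s h (h ^ k • u) = s h u ∧ s (h ^ k) u = xor b bk := by
        intro k
        induction k with
        | zero =>
          refine ⟨b, ?_, ?_, ?_⟩
          · simpa [hw'] using hLw'
          · simp
          · have h1 : s 1 u = false := by
              have := act_one (u, false)
              rw [hs] at this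
              simpa using congrArg Prod.snd this
            simpa using h1
        | succ k ih =>
          obtain ⟨bk, h1, h2, h3⟩ := ih
          obtain ⟨h4, h5⟩ := link h _ _ _ h1
          refine ⟨xor bk (s h (h ^ k • u)), ?_, ?_, ?_⟩
          · rw [← mul_smul, ← mul_smul, ← pow_succ', ← pow_succ'] at h5
            exact h5
          · rw [← h4, h2]
          · rw [pow_succ', s_mul, h3, Bool.xor_assoc]
      have hsk : ∀ k : ℕ, s (h ^ k) u = if Odd k then s h u else false := by
        intro k
        induction k with
        | zero =>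
          obtain ⟨bk, -, -, -⟩ := hchain 0
          have h1 : s 1 u = false := by
            have := act_one (u, false)
            rw [hs] at this
            simpa using congrArg Prod.snd this
          simpa using h1
        | succ k ih =>
          obtain ⟨bk, -, h2, -⟩ := hchain k
          rw [pow_succ', s_mul, h2, ih]
          by_cases hk : Odd k
          · have : ¬ Odd (k + 1) := by
              rw [Nat.not_odd_iff_even]
              exact hk.add_one
            rw [if_pos hk, if_neg this, Bool.xor_self]
          · have : Odd (k + 1) := (Nat.not_odd_iff_even.mp hk).add_one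
            rw [if_neg hk, if_pos this, Bool.false_xor]
      have hodd : Odd p := hp.odd_of_ne_two hp2
      have hsh : s h u = false := by
        have := hsk p
        rw [if_pos hodd, hhs u huF] at this
        exact this.symm
      have hall : ∀ k : ℕ, L (u, b) (h ^ k • u, b) := by
        intro k
        induction k with
        | zero => simpa using hL.refl (u, b)
        | succ k ih =>
          obtain ⟨bk, h1, -, h3⟩ := hchain k
          have h4 : s (h ^ k) u = false := by
            rw [hsk, hsh]; simp
          rw [h4] at h3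
          have h5 : bk = b := eq_of_false_eq_xor h3
          rw [h5] at h1
          exact hL.trans ih h1
      have hallF : ∀ v ∈ F, L (u, b) (v, b) := by
        intro v hv
        obtain ⟨i, hi | hi⟩ := hcy' v hv
        · rw [← hi]; exact hall i
        · have := Lc' _ _ _ (hall i)
          rw [hi, hcc] at this
          exact this
      obtain ⟨g1, hg1⟩ := F5' u
      have h1 := (link g1 u w b hLuw).2
      rw [hg1] at h1
      have h1' : L (g1 • u, !b) (g1 • w, !b) := by simpa using h1
      have h2 : L (g1 • u, b) (g1 • w, b) :=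
        hL.trans (hL.symm (hallF _ (hgF g1 u huF))) (hallF _ (hgF g1 w hwF))
      rcases F3' _ _ b h2 h1' with h3 | h3
      · exact hwu (smul_left_cancel g1 h3)
      · exact hwcu (smul_left_cancel g1 (by rw [h3, hgc]))
  -- different fibres
  have diff : ∀ u w b, L (u, b) (w, b) → f u = f w := by
    intro u w b hLuw
    by_contra hne
    have cnt : ∀ u w b, f u ≠ f w → L (u, b) (w, b) →
        ((univ.filter fun y => f y = f w).filter fun x => ∃ b', L (u, b') (x, b')).card = 2 ∨
        ((univ.filter fun y => f y = f w).filter fun x => ∃ b', L (u, b') (x, b')).card = 4 := by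
      intro u w b hne h
      set S := ((univ.filter fun y => f y = f w).filter fun x => ∃ b', L (u, b') (x, b')) with hS
      have memS : ∀ x, x ∈ S ↔ f x = f w ∧ ∃ b', L (u, b') (x, b') := by
        intro x; simp [hS]
      have hb : ∀ x, f x = f w → L (u, b) (x, b) → x = w ∨ x = c w := by
        intro x hx hx'
        exact same w x b hx.symm (hL.trans (hL.symm h) hx')
      by_cases hex : ∃ x, f x = f w ∧ L (u, !b) (x, !b)
      · obtain ⟨x, hx, hx'⟩ := hex
        right
        have hb' : ∀ y, f y = f w → L (u, !b) (y, !b) → y = x ∨ y = c x := by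
          intro y hy hy'
          exact same x y (!b) (hx.trans hy.symm) (hL.trans (hL.symm hx') hy')
        have hxw : x ≠ w := by
          rintro rfl
          rcases F3' _ _ b h hx' with h3 | h3
          · exact hne (by rw [h3])
          · exact hne (by rw [h3, hfc])
        have hxcw : x ≠ c w := by
          rintro rfl
          rcases F3' _ _ b (Lc' _ _ _ h) hx' with h3 | h3
          · exact hne (by rw [← h3, hfc])
          · exact hne (by rw [hcinj h3])
        have hcxw : c x ≠ w := fun h' => hxcw (hcinj (by rw [h', hcc]))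
        have hcxcw : c x ≠ c w := fun h' => hxw (hcinj h')
        have hSeq : S = {w, c w, x, c x} := by
          ext y
          rw [memS]
          simp only [mem_insert, mem_singleton]
          constructor
          · rintro ⟨hy, b', hy'⟩
            by_cases hbb : b' = b
            · subst hbb
              rcases hb y hy hy' with h3 | h3
              · left; exact h3
              · right; left; exact h3
            · have : b' = !b := eq_not_of_ne hbb
              subst this
              rcases hb' y hy hy' with h3 | h3
              · right; right; left; exact h3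
              · right; right; right; exact h3
          · rintro (rfl | rfl | rfl | rfl)
            · exact ⟨rfl, b, h⟩
            · exact ⟨hfc _, b, Lc' _ _ _ h⟩
            · exact ⟨hx, !b, hx'⟩
            · exact ⟨by rw [hfc, hx], !b, Lc' _ _ _ hx'⟩
        rw [hSeq, card_insert_of_notMem, card_insert_of_notMem, card_insert_of_notMem,
          card_singleton]
        · simp only [mem_singleton]; exact (hc x).symm
        · simp only [mem_insert, mem_singleton, not_or]
          exact ⟨hxcw.symm, hcxcw.symm⟩
        · simp only [mem_insert, mem_singleton, not_or]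
          exact ⟨(hc w).symm, hxw.symm, hcxw.symm⟩
      · left
        push Not at hex
        have hSeq : S = {w, c w} := by
          ext y
          rw [memS]
          simp only [mem_insert, mem_singleton]
          constructor
          · rintro ⟨hy, b', hy'⟩
            by_cases hbb : b' = b
            · subst hbb
              exact hb y hy hy'
            · have : b' = !b := eq_not_of_ne hbb
              subst this
              exact absurd hy' (hex y hy)
          · rintro (rfl | rfl)
            · exact ⟨rfl, b, h⟩
            · exact ⟨hfc _, b, Lc' _ _ _ h⟩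
        rw [hSeq, card_insert_of_notMem, card_singleton]
        simp only [mem_singleton]; exact (hc w).symm
    have trans : ∀ (u w v : U), f v = f u →
        ((univ.filter fun y => f y = f w).filter fun x => ∃ b', L (v, b') (x, b')).card =
        ((univ.filter fun y => f y = f w).filter fun x => ∃ b', L (u, b') (x, b')).card := by
      intro u w v hv
      obtain ⟨g, hg⟩ := htr u v hv.symm
      symm
      apply Finset.card_bij (fun x _ => g • x)
      · intro x hx
        simp only [mem_filter, mem_univ, true_and] at hx ⊢
        refine ⟨by rw [hf, hx.1], ?_⟩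
        obtain ⟨b', hb'⟩ := hx.2
        refine ⟨xor b' (s g u), ?_⟩
        rw [← hg]
        exact (link g u x b' hb').2
      · intro x _ y _ h
        exact smul_left_cancel g h
      · intro y hy
        simp only [mem_filter, mem_univ, true_and] at hy
        refine ⟨g⁻¹ • y, ?_, by rw [smul_inv_smul]⟩
        simp only [mem_filter, mem_univ, true_and]
        refine ⟨by rw [hf, hy.1], ?_⟩
        obtain ⟨b', hb'⟩ := hy.2
        refine ⟨xor b' (s g⁻¹ v), ?_⟩
        have hu : u = g⁻¹ • v := by rw [← hg, inv_smul_smul]
        rw [hu]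
        exact (link g⁻¹ v y b' hb').2
    have hcnt1 := cnt u w b hne hLuw
    have hcnt2 := cnt w u b (fun h => hne h.symm) (hL.symm hLuw)
    have hdc := Finset.card_mul_eq_card_mul (fun (v : U) (x : U) => ∃ b', L (v, b') (x, b'))
      (s := univ.filter fun y => f y = f u) (t := univ.filter fun y => f y = f w)
      (m := ((univ.filter fun y => f y = f w).filter fun x => ∃ b', L (u, b') (x, b')).card)
      (n := ((univ.filter fun y => f y = f u).filter fun x => ∃ b', L (w, b') (x, b')).card)
      (by
        intro v hv
        rw [← trans u w v (by simpa using hv)]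
        rfl)
      (by
        intro x hx
        rw [← trans w u x (by simpa using hx)]
        unfold Finset.bipartiteBelow
        congr 1
        apply Finset.filter_congr
        intro y _
        constructor
        · rintro ⟨b', hb'⟩; exact ⟨b', hL.symm hb'⟩
        · rintro ⟨b', hb'⟩; exact ⟨b', hL.symm hb'⟩)
    rcases hNN u w hne with ⟨h1, h2⟩ | ⟨h1, h2, h3⟩
    · -- both fibres of size two
      have two : ∀ u, (univ.filter fun y => f y = f u).card = 2 → ∀ v, f v = f u → v = u ∨ v = c u := by
        intro u hu v hv
        have hsub : ({u, c u} : Finset U) = univ.filter fun y => f y = f u := by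
          apply Finset.eq_of_subset_of_card_le
          · intro y hy
            simp only [mem_insert, mem_singleton] at hy
            rcases hy with rfl | rfl
            · simp
            · simp [hfc]
          · rw [hu, card_insert_of_notMem, card_singleton]
            simp only [mem_singleton]; exact (hc u).symm
        have : v ∈ univ.filter fun y => f y = f u := by simpa using hv
        rw [← hsub] at this
        simpa using this
      obtain ⟨g, hg⟩ := F5' u
      have e1 := (link g u w b hLuw).2
      rw [hg] at e1
      have e1' : L (g • u, !b) (g • w, !b) := by simpa using e1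
      have key : L (u, !b) (w, !b) := by
        rcases two u h1 (g • u) (hf g u) with e2 | e2 <;>
          rcases two w h2 (g • w) (hf g w) with e3 | e3 <;> rw [e2, e3] at e1'
        · exact e1'
        · have := Lc' _ _ _ e1'; rwa [hcc] at this
        · have := Lcc _ _ _ e1'; rwa [hcc] at this
        · have := Lcc _ _ _ (Lc' _ _ _ e1'); rwa [hcc, hcc] at this
      rcases F3' u w b hLuw key with h | h
      · exact hne (by rw [h])
      · exact hne (by rw [h, hfc])
    · simp only at h1 h2 h3
      rcases hcnt1 with c1 | c1 <;> rcases hcnt2 with c2 | c2 <;> rw [c1, c2] at hdc <;> omega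
  rintro ⟨u, b⟩ ⟨w, b'⟩ h
  have hb : b = b' := L_type _ _ h
  subst hb
  exact same u w b (diff u w b h) h

end Pool.Agent.Helper71
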