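import Mathlib
set_option autoImplicit false
open MeasureTheory Set
open scoped Pointwise

namespace Pool.Agent.Helper71.Torsion

lemma volume_affine_image {p : ℝ} (hp : 0 < p) (k : ℝ) (S : Set ℝ) :
    volume.real ((fun t => p * t + k) '' S) = p * volume.real S := by
  have h1 : (fun t : ℝ => p * t + k) '' S = (fun t => t + k) '' (p • S) := by
    rw [← Set.image_smul, Set.image_image]
    rfl
  rw [h1, Measure.real, Set.image_add_right, measure_preimage_add_right,
    Measure.addHaar_smul_of_nonneg volume hp.le]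
  simp [ENNReal.toReal_mul, hp.le, Measure.real]

/-- One-dimensional Brunn–Minkowski for sets in `(0,c)`. -/
lemma bm_core {A B C : Set ℝ} {p q c : ℝ} (hp : 0 < p) (hq : 0 < q) (hpq : p + q = 1)
    (hA : A ⊆ Ioo 0 c) (hB : B ⊆ Ioo 0 c)
    (hAne : A.Nonempty) (hB0 : ∀ ε > 0, ∃ b ∈ B, b < ε)
    (hC : ∀ a ∈ A, ∀ b ∈ B, p * a + q * b ∈ C) :
    p * volume.real A + q * volume.real B ≤ volume.real (C ∩ Ioo 0 c) := by
  have hfin : ∀ S : Set ℝ, S ⊆ Ioo 0 c → volume S ≠ ⊤ := by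
    intro S hS
    have : volume S ≤ volume (Ioo 0 c) := measure_mono hS
    rw [Real.volume_Ioo] at this
    exact ne_top_of_le_ne_top ENNReal.ofReal_ne_top this
  apply le_of_forall_pos_le_add
  intro ε hε
  set s := sSup A with hs
  have hbdd : BddAbove A := ⟨c, fun x hx => (hA hx).2.le⟩
  obtain ⟨a, haA, ha⟩ := exists_lt_of_lt_csSup hAne (show s - ε < s by linarith)
  obtain ⟨b, hbB, hb⟩ := hB0 ε hε
  have ha0 := hA haA
  have hb0 := hB hbB
  set S1 := (fun t => p * t + q * b) '' (A ∩ Iic a)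
  set S2 := (fun t => q * t + p * a) '' (B ∩ Ioi b)
  have h1 : volume.real S1 = p * volume.real (A ∩ Iic a) := volume_affine_image hp _ _
  have h2 : volume.real S2 = q * volume.real (B ∩ Ioi b) := volume_affine_image hq _ _
  have hS1 : S1 ⊆ (C ∩ Ioo 0 c) ∩ Iic (p * a + q * b) := by
    rintro _ ⟨t, ⟨htA, hta⟩, rfl⟩
    have ht0 := hA htA
    have hta' : t ≤ a := hta
    refine ⟨⟨hC t htA b hbB, ?_, ?_⟩, ?_⟩
    · have := ht0.1; have := hb0.1; simp only; positivity
    · have h3 : p * t < p * c := mul_lt_mul_of_pos_left ht0.2 hp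
      have h4 : q * b < q * c := mul_lt_mul_of_pos_left hb0.2 hq
      have h5 : p * c + q * c = c := by rw [← add_mul, hpq, one_mul]
      simp only; linarith
    · have : p * t ≤ p * a := mul_le_mul_of_nonneg_left hta' hp.le
      simp only [mem_Iic]; linarith
  have hS2 : S2 ⊆ (C ∩ Ioo 0 c) ∩ Ioi (p * a + q * b) := by
    rintro _ ⟨t, ⟨htB, htb⟩, rfl⟩
    have ht0 := hB htB
    have htb' : b < t := htb
    refine ⟨⟨?_, ?_, ?_⟩, ?_⟩
    · have := hC a haA t htB
      simpa [add_comm] using this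
    · have := ht0.1; have := ha0.1; simp only; positivity
    · have h3 : p * a < p * c := mul_lt_mul_of_pos_left ha0.2 hp
      have h4 : q * t < q * c := mul_lt_mul_of_pos_left ht0.2 hq
      have h5 : p * c + q * c = c := by rw [← add_mul, hpq, one_mul]
      simp only; linarith
    · have : q * b < q * t := mul_lt_mul_of_pos_left htb' hq
      simp only [mem_Ioi]; linarith
  have hCfin : volume (C ∩ Ioo 0 c) ≠ ⊤ := hfin _ inter_subset_right
  have hsum : volume.real S1 + volume.real S2 ≤ volume.real (C ∩ Ioo 0 c) := by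
    have e1 : volume.real (C ∩ Ioo 0 c) = volume.real ((C ∩ Ioo 0 c) ∩ Iic (p * a + q * b)) +
        volume.real ((C ∩ Ioo 0 c) \ Iic (p * a + q * b)) := by
      rw [measureReal_inter_add_sdiff measurableSet_Iic hCfin]
    rw [e1]
    apply add_le_add
    · exact measureReal_mono hS1 (hfin _ (inter_subset_left.trans inter_subset_right))
    · apply measureReal_mono _ (hfin _ (sdiff_subset.trans inter_subset_right))
      intro x hx
      have := hS2 hx
      refine ⟨this.1, ?_⟩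
      simp only [mem_Iic, not_le]
      exact this.2
  have hA1 : volume.real A ≤ volume.real (A ∩ Iic a) + ε := by
    have e : A ⊆ (A ∩ Iic a) ∪ Ioc a s := by
      intro x hx
      by_cases h : x ≤ a
      · exact Or.inl ⟨hx, h⟩
      · exact Or.inr ⟨not_le.mp h, le_csSup hbdd hx⟩
    have hs1 : s ≤ c := csSup_le hAne (fun x hx => (hA hx).2.le)
    have hfu : volume ((A ∩ Iic a) ∪ Ioc a s) ≠ ⊤ := by
      apply measure_union_ne_top (hfin _ (inter_subset_left.trans hA))
      rw [Real.volume_Ioc]; exact ENNReal.ofReal_ne_top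
    calc volume.real A ≤ volume.real ((A ∩ Iic a) ∪ Ioc a s) := measureReal_mono e hfu
      _ ≤ volume.real (A ∩ Iic a) + volume.real (Ioc a s) := measureReal_union_le _ _
      _ ≤ volume.real (A ∩ Iic a) + ε := by
        rw [Real.volume_real_Ioc]
        have : max (s - a) 0 ≤ ε := max_le (by linarith) hε.le
        linarith
  have hB1 : volume.real B ≤ volume.real (B ∩ Ioi b) + ε := by
    have e : B ⊆ (B ∩ Ioi b) ∪ Ioc 0 b := by
      intro x hx
      by_cases h : b < x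
      · exact Or.inl ⟨hx, h⟩
      · exact Or.inr ⟨(hB hx).1, not_lt.mp h⟩
    have hfu : volume ((B ∩ Ioi b) ∪ Ioc 0 b) ≠ ⊤ := by
      apply measure_union_ne_top (hfin _ (inter_subset_left.trans hB))
      rw [Real.volume_Ioc]; exact ENNReal.ofReal_ne_top
    calc volume.real B ≤ volume.real ((B ∩ Ioi b) ∪ Ioc 0 b) := measureReal_mono e hfu
      _ ≤ volume.real (B ∩ Ioi b) + volume.real (Ioc 0 b) := measureReal_union_le _ _
      _ ≤ volume.real (B ∩ Ioi b) + ε := by
        rw [Real.volume_real_Ioc]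
        have : max (b - 0) 0 ≤ ε := max_le (by linarith) hε.le
        linarith
  have : p * volume.real A + q * volume.real B ≤ volume.real S1 + volume.real S2 + ε := by
    rw [h1, h2]
    have := mul_le_mul_of_nonneg_left hA1 hp.le
    have := mul_le_mul_of_nonneg_left hB1 hq.le
    have e5 : p * ε + q * ε = ε := by rw [← add_mul, hpq, one_mul]
    nlinarith
  linarith

lemma real_slice {A : Set ℝ} {δ c : ℝ} (hδ : 0 < δ) (hc : δ < c)
    (hAd : Ioo 0 δ ⊆ A) :
    volume.real (A ∩ Ioo 0 c) = δ + volume.real (A ∩ Ici δ ∩ Iio c) := by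
  have hfin : volume (A ∩ Ioo 0 c) ≠ ⊤ := by
    have : volume (A ∩ Ioo 0 c) ≤ volume (Ioo 0 c) := measure_mono inter_subset_right
    rw [Real.volume_Ioo] at this
    exact ne_top_of_le_ne_top ENNReal.ofReal_ne_top this
  have e1 : volume.real (A ∩ Ioo 0 c) = volume.real ((A ∩ Ioo 0 c) ∩ Iio δ) +
        volume.real ((A ∩ Ioo 0 c) \ Iio δ) := by
      rw [measureReal_inter_add_sdiff measurableSet_Iio hfin]
  have e2 : (A ∩ Ioo 0 c) ∩ Iio δ = Ioo 0 δ := by
    ext x
    simp only [mem_inter_iff, mem_Ioo, mem_Iio]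
    constructor
    · rintro ⟨⟨_, h1, _⟩, h2⟩; exact ⟨h1, h2⟩
    · rintro ⟨h1, h2⟩; exact ⟨⟨hAd ⟨h1, h2⟩, h1, by linarith⟩, h2⟩
  have e3 : (A ∩ Ioo 0 c) \ Iio δ = A ∩ Ici δ ∩ Iio c := by
    ext x
    simp only [mem_inter_iff, mem_Ioo, mem_Iio, mem_sdiff, not_lt, mem_Ici]
    constructor
    · rintro ⟨⟨h0, h1, h3⟩, h2⟩; exact ⟨⟨h0, h2⟩, h3⟩
    · rintro ⟨⟨h0, h2⟩, h3⟩; exact ⟨⟨h0, by linarith, h3⟩, h2⟩
  rw [e1, e2, e3, Real.volume_real_Ioo]
  simp [hδ.le]

lemma bm_slice {A B C : Set ℝ} {p q δ c : ℝ} (hp : 0 ≤ p) (hq : 0 ≤ q) (hpq : p + q = 1)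
    (hδ : 0 < δ) (hc : δ < c)
    (hA0 : A ⊆ Ioi 0) (hB0 : B ⊆ Ioi 0)
    (hAd : Ioo 0 δ ⊆ A) (hBd : Ioo 0 δ ⊆ B) (hCd : Ioo 0 δ ⊆ C)
    (hC : ∀ a ∈ A, ∀ b ∈ B, p * a + q * b ∈ C) :
    p * volume.real (A ∩ Ici δ ∩ Iio c) + q * volume.real (B ∩ Ici δ ∩ Iio c)
      ≤ volume.real (C ∩ Ici δ ∩ Iio c) := by
  have hc0 : 0 < c := hδ.trans hc
  have hδ2 : δ / 2 ∈ Ioo 0 δ := ⟨by linarith, by linarith⟩
  have hfin : ∀ S : Set ℝ, volume (S ∩ Ici δ ∩ Iio c) ≠ ⊤ := by
    intro S
    have : volume (S ∩ Ici δ ∩ Iio c) ≤ volume (Ico δ c) :=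
      measure_mono (fun x hx => ⟨hx.1.2, hx.2⟩)
    rw [Real.volume_Ico] at this
    exact ne_top_of_le_ne_top ENNReal.ofReal_ne_top this
  rcases hp.eq_or_lt with hp0 | hp0
  · subst hp0
    have hq1 : q = 1 := by linarith
    subst hq1
    simp only [zero_mul, one_mul, zero_add]
    apply measureReal_mono _ (hfin C)
    intro x hx
    have := hC _ (hAd hδ2) x hx.1.1
    simp only [zero_mul, one_mul, zero_add] at this
    exact ⟨⟨this, hx.1.2⟩, hx.2⟩
  rcases hq.eq_or_lt with hq0 | hq0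
  · subst hq0
    have hp1 : p = 1 := by linarith
    subst hp1
    simp only [zero_mul, one_mul, add_zero]
    apply measureReal_mono _ (hfin C)
    intro x hx
    have := hC x hx.1.1 _ (hBd hδ2)
    simp only [zero_mul, one_mul, add_zero] at this
    exact ⟨⟨this, hx.1.2⟩, hx.2⟩
  have key := bm_core (A := A ∩ Ioo 0 c) (B := B ∩ Ioo 0 c) (C := C) (c := c) hp0 hq0 hpq
    inter_subset_right inter_subset_right
    ⟨δ / 2, hAd hδ2, hδ2.1, hδ2.2.trans hc⟩
    (by
      intro ε hε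
      refine ⟨min (δ / 2) (ε / 2), ⟨hBd ⟨?_, ?_⟩, ?_, ?_⟩, ?_⟩
      · positivity
      · exact (min_le_left _ _).trans_lt hδ2.2
      · positivity
      · exact ((min_le_left _ _).trans_lt hδ2.2).trans hc
      · exact (min_le_right _ _).trans_lt (by linarith))
    (fun a ha b hb => hC a ha.1 b hb.1)
  rw [real_slice hδ hc hAd, real_slice hδ hc hBd, real_slice hδ hc hCd] at key
  have : p * δ + q * δ = δ := by rw [← add_mul, hpq, one_mul]
  nlinarith

lemma lint_slice {A : Set ℝ} {δ : ℝ} (hδ : 0 < δ) (hAm : MeasurableSet A) :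
    ∫⁻ t in A ∩ Ici δ, ENNReal.ofReal t⁻¹ =
      ∫⁻ s in Ioi (0 : ℝ), volume (A ∩ Ici δ ∩ Iio s⁻¹) := by
  rw [lintegral_eq_lintegral_meas_lt]
  · apply setLIntegral_congr_fun measurableSet_Ioi
    intro s hs
    have hs' : 0 < s := hs
    simp only
    rw [Measure.restrict_apply' (hAm.inter measurableSet_Ici)]
    congr 1
    ext t
    simp only [mem_inter_iff, mem_ofPred_eq, mem_Ici, mem_Iio]
    constructor
    · rintro ⟨h1, h2, h3⟩
      have ht : 0 < t := lt_of_lt_of_le hδ h3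
      exact ⟨⟨h2, h3⟩, (lt_inv_comm₀ hs' ht).mp h1⟩
    · rintro ⟨⟨h2, h3⟩, h1⟩
      have ht : 0 < t := lt_of_lt_of_le hδ h3
      exact ⟨(lt_inv_comm₀ hs' ht).mpr h1, h2, h3⟩
  · filter_upwards [ae_restrict_mem (hAm.inter measurableSet_Ici)] with t ht
    have : 0 < t := lt_of_lt_of_le hδ ht.2
    exact (inv_pos.mpr this).le
  · exact measurable_inv.aemeasurable

lemma integrable_slice {A : Set ℝ} {δ R : ℝ} (hδ : 0 < δ) (hAm : MeasurableSet A)
    (hAR : A ⊆ Iio R) : IntegrableOn (fun t : ℝ => t⁻¹) (A ∩ Ici δ) := by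
  have h1 : IntegrableOn (fun t : ℝ => t⁻¹) (Icc δ R) := by
    apply ContinuousOn.integrableOn_Icc
    apply ContinuousOn.inv₀ continuousOn_id
    intro x hx
    exact (lt_of_lt_of_le hδ hx.1).ne'
  exact h1.mono_set (fun x hx => ⟨hx.2, (hAR hx.1).le⟩)

lemma bm_weight {A B C : Set ℝ} {p q δ R : ℝ} (hp : 0 ≤ p) (hq : 0 ≤ q) (hpq : p + q = 1)
    (hδ : 0 < δ) (hA0 : A ⊆ Ioo 0 R) (hB0 : B ⊆ Ioo 0 R) (hC0 : C ⊆ Ioo 0 R)
    (hAm : MeasurableSet A) (hBm : MeasurableSet B) (hCm : MeasurableSet C)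
    (hAd : Ioo 0 δ ⊆ A) (hBd : Ioo 0 δ ⊆ B) (hCd : Ioo 0 δ ⊆ C)
    (hC : ∀ a ∈ A, ∀ b ∈ B, p * a + q * b ∈ C) :
    p * (∫ t in A ∩ Ici δ, t⁻¹) + q * (∫ t in B ∩ Ici δ, t⁻¹) ≤ ∫ t in C ∩ Ici δ, t⁻¹ := by
  have key : ENNReal.ofReal p * (∫⁻ t in A ∩ Ici δ, ENNReal.ofReal t⁻¹) +
      ENNReal.ofReal q * (∫⁻ t in B ∩ Ici δ, ENNReal.ofReal t⁻¹) ≤
      ∫⁻ t in C ∩ Ici δ, ENNReal.ofReal t⁻¹ := by
    rw [lint_slice hδ hAm, lint_slice hδ hBm, lint_slice hδ hCm]
    have hmeas : ∀ S : Set ℝ, Measurable (fun s : ℝ => volume (S ∩ Ici δ ∩ Iio s⁻¹)) := by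
      intro S
      have hmono : Monotone (fun c : ℝ => volume (S ∩ Ici δ ∩ Iio c)) := by
        intro a b hab
        exact measure_mono (inter_subset_inter_right _ (Iio_subset_Iio hab))
      exact hmono.measurable.comp measurable_inv
    rw [← lintegral_const_mul _ (hmeas A), ← lintegral_const_mul _ (hmeas B),
      ← lintegral_add_left ((hmeas A).const_mul _)]
    apply setLIntegral_mono_ae ((hmeas C).aemeasurable)
    refine Filter.Eventually.of_forall (fun s hs => ?_)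
    have hs' : 0 < s := hs
    by_cases hc : δ < s⁻¹
    · have hfin : ∀ S : Set ℝ, volume (S ∩ Ici δ ∩ Iio s⁻¹) ≠ ⊤ := by
        intro S
        have : volume (S ∩ Ici δ ∩ Iio s⁻¹) ≤ volume (Ico δ s⁻¹) :=
          measure_mono (fun x hx => ⟨hx.1.2, hx.2⟩)
        rw [Real.volume_Ico] at this
        exact ne_top_of_le_ne_top ENNReal.ofReal_ne_top this
      have := bm_slice hp hq hpq hδ hc (fun x hx => (hA0 hx).1) (fun x hx => (hB0 hx).1)
        hAd hBd hCd hC
      rw [← ENNReal.ofReal_toReal (hfin A), ← ENNReal.ofReal_toReal (hfin B),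
        ← ENNReal.ofReal_toReal (hfin C), ← ENNReal.ofReal_mul hp, ← ENNReal.ofReal_mul hq,
        ← ENNReal.ofReal_add (by positivity) (by positivity)]
      exact ENNReal.ofReal_le_ofReal this
    · have he : ∀ S : Set ℝ, S ∩ Ici δ ∩ Iio s⁻¹ = ∅ := by
        intro S
        ext x
        simp only [mem_inter_iff, mem_Ici, mem_Iio, mem_empty_iff_false, iff_false, not_and,
          not_lt]
        intro h
        exact (not_lt.mp hc).trans h.2
      simp [he]
  have hint : ∀ S : Set ℝ, S ⊆ Ioo 0 R → MeasurableSet S →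
      (∫ t in S ∩ Ici δ, t⁻¹) = (∫⁻ t in S ∩ Ici δ, ENNReal.ofReal t⁻¹).toReal ∧
      (∫⁻ t in S ∩ Ici δ, ENNReal.ofReal t⁻¹) ≠ ⊤ := by
    intro S hS hSm
    have hI := integrable_slice (R := R) hδ hSm (fun x hx => (hS hx).2)
    have hnn : 0 ≤ᵐ[volume.restrict (S ∩ Ici δ)] (fun t : ℝ => t⁻¹) := by
      filter_upwards [ae_restrict_mem (hSm.inter measurableSet_Ici)] with t ht
      have : 0 < t := lt_of_lt_of_le hδ ht.2
      exact (inv_pos.mpr this).le
    refine ⟨integral_eq_lintegral_of_nonneg_ae hnn hI.aestronglyMeasurable, ?_⟩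
    exact hI.lintegral_lt_top.ne
  obtain ⟨a1, a2⟩ := hint A hA0 hAm
  obtain ⟨b1, b2⟩ := hint B hB0 hBm
  obtain ⟨c1, c2⟩ := hint C hC0 hCm
  rw [a1, b1, c1]
  have := ENNReal.toReal_mono c2 key
  rw [ENNReal.toReal_add (ENNReal.mul_ne_top ENNReal.ofReal_ne_top a2)
    (ENNReal.mul_ne_top ENNReal.ofReal_ne_top b2), ENNReal.toReal_mul, ENNReal.toReal_mul,
    ENNReal.toReal_ofReal hp, ENNReal.toReal_ofReal hq] at this
  exact this

/-- signed indicator -/
noncomputable def sg (t b : ℝ) : ℝ := (if t < 1 then 1 else 0) - (if t < b then 1 else 0)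

lemma lc0 {α c : ℝ} (hα : 0 < α) (hc : 0 ≤ c) :
    IntegrableOn (fun t : ℝ => (if t < c then (1:ℝ) else 0) * (α * t ^ (α - 1))) (Ioi 0) ∧
    ∫ t in Ioi (0:ℝ), (if t < c then (1:ℝ) else 0) * (α * t ^ (α - 1)) = c ^ α := by
  have e : (fun t : ℝ => (if t < c then (1:ℝ) else 0) * (α * t ^ (α - 1))) =
      (Iio c).indicator (fun t => α * t ^ (α - 1)) := by
    ext t
    by_cases h : t < c
    · simp [h]
    · simp [h]
  have hI : IntegrableOn (fun t : ℝ => α * t ^ (α - 1)) (Ioo 0 c) := by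
    have := (intervalIntegral.intervalIntegrable_rpow' (a := 0) (b := c) (r := α - 1)
      (by linarith)).const_mul α
    rw [intervalIntegrable_iff_integrableOn_Ioo_of_le hc] at this
    exact this
  have hset : Ioi 0 ∩ Iio c = Ioo 0 c := rfl
  constructor
  · rw [e, IntegrableOn, integrable_indicator_iff measurableSet_Iio, IntegrableOn,
      Measure.restrict_restrict measurableSet_Iio, inter_comm, hset]
    exact hI
  · rw [e, integral_indicator measurableSet_Iio, Measure.restrict_restrict measurableSet_Iio,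
      inter_comm, hset, ← integral_Ioc_eq_integral_Ioo, ← intervalIntegral.integral_of_le hc,
      intervalIntegral.integral_const_mul, integral_rpow (Or.inl (by linarith))]
    have h1 : α - 1 + 1 = α := by ring
    rw [h1, Real.zero_rpow hα.ne', sub_zero]
    field_simp

lemma lc1 {α b : ℝ} (hα : 0 < α) (hb : 0 ≤ b) :
    IntegrableOn (fun t : ℝ => sg t b * (α * t ^ (α - 1))) (Ioi 0) ∧
    ∫ t in Ioi (0:ℝ), sg t b * (α * t ^ (α - 1)) = 1 - b ^ α := by
  obtain ⟨h1, h2⟩ := lc0 hα (zero_le_one (α := ℝ))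
  obtain ⟨h3, h4⟩ := lc0 hα hb
  rw [Real.one_rpow] at h2
  have e : (fun t : ℝ => sg t b * (α * t ^ (α - 1))) = fun t =>
      (if t < 1 then (1:ℝ) else 0) * (α * t ^ (α - 1)) -
      (if t < b then (1:ℝ) else 0) * (α * t ^ (α - 1)) := by
    ext t; rw [sg]; ring
  constructor
  · rw [e]; exact h1.sub h3
  · rw [e, integral_sub h1 h3, h2, h4]

lemma lc2 {α b : ℝ} (hα : 0 < α) (hb : 0 ≤ b) :
    ∫ t in Ioi (0:ℝ), ‖sg t b * (α * t ^ (α - 1))‖ = ‖1 - b ^ α‖ := by
  obtain ⟨h1, h2⟩ := lc1 hα hb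
  rcases le_total b 1 with h | h
  · have : ∀ t ∈ Ioi (0:ℝ), ‖sg t b * (α * t ^ (α - 1))‖ = sg t b * (α * t ^ (α - 1)) := by
      intro t ht
      have ht' : 0 < t := ht
      rw [Real.norm_of_nonneg]
      apply mul_nonneg _ (by positivity)
      rw [sg]
      by_cases h3 : t < b
      · simp [h3, h3.trans_le h]
      · simp only [h3, if_false, sub_zero]
        split_ifs <;> norm_num
    rw [setIntegral_congr_fun measurableSet_Ioi this, h2, Real.norm_of_nonneg]
    have := Real.rpow_le_rpow hb h hα.le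
    rw [Real.one_rpow] at this
    linarith
  · have : ∀ t ∈ Ioi (0:ℝ), ‖sg t b * (α * t ^ (α - 1))‖ = -(sg t b * (α * t ^ (α - 1))) := by
      intro t ht
      have ht' : 0 < t := ht
      rw [Real.norm_of_nonpos]
      apply mul_nonpos_of_nonpos_of_nonneg _ (by positivity)
      rw [sg]
      by_cases h3 : t < 1
      · simp [h3, h3.trans_le h]
      · simp only [h3, if_false, zero_sub]
        split_ifs <;> norm_num
    rw [setIntegral_congr_fun measurableSet_Ioi this, integral_neg, h2, Real.norm_of_nonpos]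
    have := Real.rpow_le_rpow zero_le_one h hα.le
    rw [Real.one_rpow] at this
    linarith

variable {d : ℕ}


/-- the integrand in the second coordinates -/
noncomputable def psi2 (α : ℝ) (u : (EuclideanSpace ℝ (Fin d)) → ℝ) (w : (EuclideanSpace ℝ (Fin d))) (t : ℝ) : ℝ :=
  sg t (u (t • w)) * (α * t⁻¹) / ‖w‖ ^ ((d : ℝ) + α)

noncomputable def psi1 (α : ℝ) (u : (EuclideanSpace ℝ (Fin d)) → ℝ) (z : (EuclideanSpace ℝ (Fin d))) (t : ℝ) : ℝ :=
  sg t (u z) * (α * t ^ (α - 1)) / ‖z‖ ^ ((d : ℝ) + α)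

lemma measurable_sg : Measurable (fun x : ℝ × ℝ => sg x.1 x.2) := by
  unfold sg
  apply Measurable.sub
  · exact Measurable.ite (measurableSet_lt measurable_fst measurable_const) measurable_const
      measurable_const
  · exact Measurable.ite (measurableSet_lt measurable_fst measurable_snd) measurable_const
      measurable_const

lemma measurable_psi1 {α : ℝ} {u : (EuclideanSpace ℝ (Fin d)) → ℝ} (hu : Measurable u) :
    Measurable (fun x : (EuclideanSpace ℝ (Fin d)) × ℝ => psi1 α u x.1 x.2) := by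
  unfold psi1
  apply Measurable.div
  · apply Measurable.mul
    · exact measurable_sg.comp (measurable_snd.prodMk (hu.comp measurable_fst))
    · exact (measurable_snd.pow_const _).const_mul _
  · exact (measurable_fst.norm).pow_const _

lemma measurable_psi2 {α : ℝ} {u : (EuclideanSpace ℝ (Fin d)) → ℝ} (hu : Measurable u) :
    Measurable (fun x : (EuclideanSpace ℝ (Fin d)) × ℝ => psi2 α u x.1 x.2) := by
  unfold psi2
  apply Measurable.div
  · apply Measurable.mul
    · exact measurable_sg.comp (measurable_snd.prodMk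
        (hu.comp (measurable_snd.smul measurable_fst)))
    · exact (measurable_snd.inv).const_mul _
  · exact (measurable_fst.norm).pow_const _

lemma psi2_eq {α : ℝ} (u : (EuclideanSpace ℝ (Fin d)) → ℝ) (w : (EuclideanSpace ℝ (Fin d))) {t : ℝ} (ht : 0 < t) :
    psi2 α u w t = t ^ d * psi1 α u (t • w) t := by
  unfold psi2 psi1
  rw [norm_smul, Real.norm_of_nonneg ht.le, Real.mul_rpow ht.le (norm_nonneg _)]
  have h1 : t ^ ((d : ℝ) + α) = t ^ d * (t ^ (α - 1) * t) := by
    rw [Real.rpow_add ht, Real.rpow_natCast]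
    congr 1
    rw [← Real.rpow_add_one ht.ne']
    congr 1
    ring
  rw [h1]
  have h2 : 0 < t ^ (α - 1) := Real.rpow_pos_of_pos ht _
  have h3 : 0 < t ^ d := pow_pos ht _
  by_cases h4 : ‖w‖ ^ ((d : ℝ) + α) = 0
  · simp [h4]
  · field_simp

lemma key_formula {α : ℝ} (hα : 0 < α) {u : (EuclideanSpace ℝ (Fin d)) → ℝ} (hu : Measurable u) (h0 : ∀ z, 0 ≤ u z)
    (hI : Integrable (fun z : (EuclideanSpace ℝ (Fin d)) => (1 - u z ^ α) / ‖z‖ ^ ((d : ℝ) + α))) :
    Integrable (fun w : (EuclideanSpace ℝ (Fin d)) => ∫ t in Ioi (0:ℝ), psi2 α u w t) ∧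
    ∫ z : (EuclideanSpace ℝ (Fin d)), (1 - u z ^ α) / ‖z‖ ^ ((d : ℝ) + α) = ∫ w : (EuclideanSpace ℝ (Fin d)), ∫ t in Ioi (0:ℝ), psi2 α u w t := by
  set ν : Measure ℝ := volume.restrict (Ioi 0) with hν
  have hint1 : ∀ z, ∫ t, psi1 α u z t ∂ν = (1 - u z ^ α) / ‖z‖ ^ ((d : ℝ) + α) := by
    intro z
    simp only [psi1]
    rw [integral_div, (lc1 hα (h0 z)).2]
  have hnorm1 : ∀ z, ∫ t, ‖psi1 α u z t‖ ∂ν = ‖(1 - u z ^ α) / ‖z‖ ^ ((d : ℝ) + α)‖ := by
    intro z
    simp only [psi1, norm_div]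
    rw [integral_div, lc2 hα (h0 z)]
  have hP1 : Integrable (Function.uncurry (psi1 α u)) ((volume : Measure (EuclideanSpace ℝ (Fin d))).prod ν) := by
    have hm : AEStronglyMeasurable (Function.uncurry (psi1 α u))
      ((volume : Measure (EuclideanSpace ℝ (Fin d))).prod ν) := (measurable_psi1 hu).aestronglyMeasurable
    rw [integrable_prod_iff hm]
    refine ⟨Filter.Eventually.of_forall (fun z => ?_), ?_⟩
    · exact (lc1 hα (h0 z)).1.div_const (‖z‖ ^ ((d : ℝ) + α))
    · simp only [Function.uncurry]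
      simp_rw [hnorm1]
      exact hI.norm
  have hscale : ∀ t : ℝ, 0 < t → ∀ F : (EuclideanSpace ℝ (Fin d)) → ℝ, ∫ w, t ^ d * F (t • w) = ∫ z, F z := by
    intro t ht F
    rw [integral_const_mul, Measure.integral_comp_smul, finrank_euclideanSpace_fin,
      abs_of_nonneg (by positivity), smul_eq_mul, ← mul_assoc, mul_inv_cancel₀ (by positivity),
      one_mul]
  have hP2 : Integrable (Function.uncurry (psi2 α u)) ((volume : Measure (EuclideanSpace ℝ (Fin d))).prod ν) := by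
    have hm : AEStronglyMeasurable (Function.uncurry (psi2 α u))
      ((volume : Measure (EuclideanSpace ℝ (Fin d))).prod ν) := (measurable_psi2 hu).aestronglyMeasurable
    rw [integrable_prod_iff' hm]
    constructor
    · filter_upwards [hP1.prod_left_ae, ae_restrict_mem (measurableSet_Ioi (a := (0:ℝ)))]
        with t ht ht0
      have ht0' : 0 < t := ht0
      simp only [Function.uncurry] at ht ⊢
      have : (fun w => psi2 α u w t) = fun w => t ^ d * psi1 α u (t • w) t := by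
        ext w; exact psi2_eq u w ht0'
      rw [this]
      exact (ht.comp_smul ht0'.ne').const_mul _
    · have h1 := hP1.integral_norm_prod_right
      refine h1.congr ?_
      filter_upwards [ae_restrict_mem (measurableSet_Ioi (a := (0:ℝ)))] with t ht0
      have ht0' : 0 < t := ht0
      simp only [Function.uncurry]
      have : (fun w => ‖psi2 α u w t‖) = fun w => t ^ d * ‖psi1 α u (t • w) t‖ := by
        ext w; rw [psi2_eq u w ht0', norm_mul, Real.norm_of_nonneg (by positivity)]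
      rw [this, hscale t ht0' (fun z => ‖psi1 α u z t‖)]
  refine ⟨hP2.integral_prod_left, ?_⟩
  calc ∫ z : (EuclideanSpace ℝ (Fin d)), (1 - u z ^ α) / ‖z‖ ^ ((d : ℝ) + α) = ∫ z, ∫ t, psi1 α u z t ∂ν := by
        simp_rw [hint1]
    _ = ∫ t, (∫ z : (EuclideanSpace ℝ (Fin d)), psi1 α u z t) ∂ν := integral_integral_swap hP1
    _ = ∫ t, (∫ w : (EuclideanSpace ℝ (Fin d)), psi2 α u w t) ∂ν := by
        apply setIntegral_congr_fun measurableSet_Ioi
        intro t ht0
        have ht0' : 0 < t := ht0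
        simp only
        have : (fun w => psi2 α u w t) = fun w => t ^ d * psi1 α u (t • w) t := by
          ext w; exact psi2_eq u w ht0'
        rw [this, hscale t ht0' (fun z => psi1 α u z t)]
    _ = ∫ w : (EuclideanSpace ℝ (Fin d)), ∫ t in Ioi (0:ℝ), psi2 α u w t := (integral_integral_swap hP2).symm

/-- slice set -/
def slc (u : (EuclideanSpace ℝ (Fin d)) → ℝ) (w : (EuclideanSpace ℝ (Fin d))) : Set ℝ := {t | 0 < t ∧ t < u (t • w)}

lemma measurableSet_slc {u : (EuclideanSpace ℝ (Fin d)) → ℝ} (hu : Measurable u) (w : (EuclideanSpace ℝ (Fin d))) : MeasurableSet (slc u w) := by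
  unfold slc
  apply MeasurableSet.inter (measurableSet_lt measurable_const measurable_id)
  exact measurableSet_lt measurable_id (hu.comp (measurable_id.smul_const w))

lemma slice_integral {α : ℝ} {u : (EuclideanSpace ℝ (Fin d)) → ℝ} (hu : Measurable u) {w : (EuclideanSpace ℝ (Fin d))} {δ R : ℝ} (hδ : 0 < δ)
    (hδ1 : δ ≤ 1) (hR : ∀ z, u z < R) (hloc : Ioo 0 δ ⊆ slc u w) :
    ∫ t in Ioi (0:ℝ), psi2 α u w t =
      α / ‖w‖ ^ ((d : ℝ) + α) * ((∫ t in Ico δ 1, t⁻¹) - ∫ t in slc u w ∩ Ici δ, t⁻¹) := by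
  have hA := measurableSet_slc hu w
  have hAR : slc u w ⊆ Iio R := fun t ht => ht.2.trans (hR _)
  have e : ∀ t ∈ Ioi (0:ℝ), psi2 α u w t = α / ‖w‖ ^ ((d : ℝ) + α) *
      ((Ico δ 1).indicator (fun t => t⁻¹) t - (slc u w ∩ Ici δ).indicator (fun t => t⁻¹) t) := by
    intro t ht
    have ht0 : 0 < t := ht
    have key : sg t (u (t • w)) * t⁻¹ =
      ((Ico δ 1).indicator (fun t => t⁻¹) t - (slc u w ∩ Ici δ).indicator (fun t => t⁻¹) t) := by
      by_cases h1 : t < δ
      · have h2 := hloc ⟨ht0, h1⟩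
        have h3 : t < u (t • w) := h2.2
        have h4 : t ∉ Ico δ 1 := fun h => absurd h.1 (not_le.mpr h1)
        have h5 : t ∉ slc u w ∩ Ici δ := fun h => absurd h.2 (not_le.mpr h1)
        rw [indicator_of_notMem h4, indicator_of_notMem h5, sg, if_pos h3,
          if_pos (h1.trans_le hδ1)]
        simp
      · have h1' : δ ≤ t := not_lt.mp h1
        rw [sg, sub_mul]
        congr 1
        · by_cases h2 : t < 1
          · rw [if_pos h2, indicator_of_mem (show t ∈ Ico δ 1 from ⟨h1', h2⟩), one_mul]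
          · rw [if_neg h2, indicator_of_notMem (fun h : t ∈ Ico δ 1 => h2 h.2), zero_mul]
        · by_cases h2 : t < u (t • w)
          · rw [if_pos h2, indicator_of_mem
              (show t ∈ slc u w ∩ Ici δ from ⟨⟨ht0, h2⟩, h1'⟩), one_mul]
          · rw [if_neg h2, indicator_of_notMem
              (fun h : t ∈ slc u w ∩ Ici δ => h2 h.1.2), zero_mul]
    rw [← key, psi2]
    ring
  rw [setIntegral_congr_fun measurableSet_Ioi e, integral_const_mul]
  congr 1
  have hI1 : IntegrableOn (fun t : ℝ => t⁻¹) (Ico δ 1) := by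
    have h1 : IntegrableOn (fun t : ℝ => t⁻¹) (Icc δ 1) := by
      apply ContinuousOn.integrableOn_Icc
      apply ContinuousOn.inv₀ continuousOn_id
      intro x hx
      exact (lt_of_lt_of_le hδ hx.1).ne'
    exact h1.mono_set Ico_subset_Icc_self
  have hI2 : IntegrableOn (fun t : ℝ => t⁻¹) (slc u w ∩ Ici δ) := integrable_slice hδ hA hAR
  have hm1 : MeasurableSet (Ico δ 1) := measurableSet_Ico
  have hm2 : MeasurableSet (slc u w ∩ Ici δ) := hA.inter measurableSet_Ici
  rw [integral_sub, integral_indicator hm1, integral_indicator hm2,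
    Measure.restrict_restrict hm1, Measure.restrict_restrict hm2]
  · congr 2
    · congr 1
      exact inter_eq_left.mpr (fun t ht => lt_of_lt_of_le hδ ht.1)
    · congr 1
      exact inter_eq_left.mpr (fun t ht => ht.1.1)
  · exact ((integrable_indicator_iff hm1).mpr hI1).mono_measure Measure.restrict_le_self
  · exact ((integrable_indicator_iff hm2).mpr hI2).mono_measure Measure.restrict_le_self

theorem compare {α : ℝ} (hα : 0 < α) {u₁ u₂ v : (EuclideanSpace ℝ (Fin d)) → ℝ} {p q R : ℝ} (hp : 0 ≤ p) (hq : 0 ≤ q)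
    (hpq : p + q = 1)
    (hu₁ : Measurable u₁) (hu₂ : Measurable u₂) (hv : Measurable v)
    (h0₁ : ∀ z, 0 ≤ u₁ z) (h0₂ : ∀ z, 0 ≤ u₂ z) (h0 : ∀ z, 0 ≤ v z)
    (hR₁ : ∀ z, u₁ z < R) (hR₂ : ∀ z, u₂ z < R) (hR : ∀ z, v z < R)
    (hl₁ : ∀ w, ∃ δ > 0, Ioo 0 δ ⊆ slc u₁ w) (hl₂ : ∀ w, ∃ δ > 0, Ioo 0 δ ⊆ slc u₂ w)
    (hI₁ : Integrable (fun z : (EuclideanSpace ℝ (Fin d)) => (1 - u₁ z ^ α) / ‖z‖ ^ ((d : ℝ) + α)))
    (hI₂ : Integrable (fun z : (EuclideanSpace ℝ (Fin d)) => (1 - u₂ z ^ α) / ‖z‖ ^ ((d : ℝ) + α)))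
    (hI : Integrable (fun z : (EuclideanSpace ℝ (Fin d)) => (1 - v z ^ α) / ‖z‖ ^ ((d : ℝ) + α)))
    (hcomb : ∀ w : (EuclideanSpace ℝ (Fin d)), ∀ a b : ℝ, 0 < a → 0 < b → a < u₁ (a • w) → b < u₂ (b • w) →
      p * a + q * b < v ((p * a + q * b) • w)) :
    ∫ z : (EuclideanSpace ℝ (Fin d)), (1 - v z ^ α) / ‖z‖ ^ ((d : ℝ) + α) ≤
      p * (∫ z : (EuclideanSpace ℝ (Fin d)), (1 - u₁ z ^ α) / ‖z‖ ^ ((d : ℝ) + α)) +
      q * (∫ z : (EuclideanSpace ℝ (Fin d)), (1 - u₂ z ^ α) / ‖z‖ ^ ((d : ℝ) + α)) := by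
  obtain ⟨k1, k2⟩ := key_formula hα hu₁ h0₁ hI₁
  obtain ⟨k3, k4⟩ := key_formula hα hu₂ h0₂ hI₂
  obtain ⟨k5, k6⟩ := key_formula hα hv h0 hI
  rw [k2, k4, k6, ← integral_const_mul, ← integral_const_mul,
    ← integral_add (k1.const_mul p) (k3.const_mul q)]
  apply integral_mono k5 ((k1.const_mul p).add (k3.const_mul q))
  intro w
  simp only [Pi.add_apply]
  obtain ⟨δ₁, hδ₁, hs₁⟩ := hl₁ w
  obtain ⟨δ₂, hδ₂, hs₂⟩ := hl₂ w
  set δ := min (min δ₁ δ₂) 1 with hδdef
  have hδ : 0 < δ := by positivity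
  have hδ1 : δ ≤ 1 := min_le_right _ _
  have e1 : Ioo 0 δ ⊆ slc u₁ w := (Ioo_subset_Ioo_right
    ((min_le_left _ _).trans (min_le_left _ _))).trans hs₁
  have e2 : Ioo 0 δ ⊆ slc u₂ w := (Ioo_subset_Ioo_right
    ((min_le_left _ _).trans (min_le_right _ _))).trans hs₂
  have hcomb' : ∀ a ∈ slc u₁ w, ∀ b ∈ slc u₂ w, p * a + q * b ∈ slc v w := by
    intro a ha b hb
    refine ⟨?_, hcomb w a b ha.1 hb.1 ha.2 hb.2⟩
    have := ha.1; have := hb.1
    rcases hp.eq_or_lt with h | h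
    · have : q = 1 := by linarith
      rw [← h, this]; simpa using hb.1
    · positivity
  have e3 : Ioo 0 δ ⊆ slc v w := by
    intro t ht
    have := hcomb' t (e1 ht) t (e2 ht)
    rwa [← add_mul, hpq, one_mul] at this
  rw [slice_integral hu₁ hδ hδ1 hR₁ e1, slice_integral hu₂ hδ hδ1 hR₂ e2,
    slice_integral hv hδ hδ1 hR e3]
  have key := bm_weight (R := R) hp hq hpq hδ
    (fun t ht => ⟨ht.1, ht.2.trans (hR₁ _)⟩) (fun t ht => ⟨ht.1, ht.2.trans (hR₂ _)⟩)
    (fun t ht => ⟨ht.1, ht.2.trans (hR _)⟩)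
    (measurableSet_slc hu₁ w) (measurableSet_slc hu₂ w) (measurableSet_slc hv w) e1 e2 e3 hcomb'
  set K := ∫ t in Ico δ 1, t⁻¹
  set c := α / ‖w‖ ^ ((d : ℝ) + α)
  have hc : 0 ≤ c := by positivity
  have e5 : p * K + q * K = K := by rw [← add_mul, hpq, one_mul]
  calc c * (K - ∫ t in slc v w ∩ Ici δ, t⁻¹)
      ≤ c * (K - (p * (∫ t in slc u₁ w ∩ Ici δ, t⁻¹) + q * (∫ t in slc u₂ w ∩ Ici δ, t⁻¹))) := by
        apply mul_le_mul_of_nonneg_left _ hc
        linarith
    _ = _ := by linear_combination (-c) * e5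

lemma scaling {α : ℝ} (F : (EuclideanSpace ℝ (Fin d)) → ℝ) (x : (EuclideanSpace ℝ (Fin d))) {U : ℝ} (hU : 0 < U)
    (hI : Integrable (fun y : (EuclideanSpace ℝ (Fin d)) => (F x - F y) / ‖x - y‖ ^ ((d : ℝ) + α))) :
    Integrable (fun z : (EuclideanSpace ℝ (Fin d)) => (F x - F (x + U • z)) / U ^ α / ‖z‖ ^ ((d : ℝ) + α)) ∧
    ∫ z : (EuclideanSpace ℝ (Fin d)), (F x - F (x + U • z)) / U ^ α / ‖z‖ ^ ((d : ℝ) + α) =
      ∫ y : (EuclideanSpace ℝ (Fin d)), (F x - F y) / ‖x - y‖ ^ ((d : ℝ) + α) := by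
  set H : (EuclideanSpace ℝ (Fin d)) → ℝ := fun y => (F x - F y) / ‖x - y‖ ^ ((d : ℝ) + α) with hH
  have e : (fun z : (EuclideanSpace ℝ (Fin d)) => (F x - F (x + U • z)) / U ^ α / ‖z‖ ^ ((d : ℝ) + α)) =
      fun z => U ^ d * H (x + U • z) := by
    ext z
    simp only [hH]
    have h1 : ‖x - (x + U • z)‖ = U * ‖z‖ := by
      rw [sub_add_cancel_left, norm_neg, norm_smul, Real.norm_of_nonneg hU.le]
    rw [h1, Real.mul_rpow hU.le (norm_nonneg _), Real.rpow_add hU, Real.rpow_natCast]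
    have h2 : 0 < U ^ α := Real.rpow_pos_of_pos hU _
    by_cases h4 : ‖z‖ ^ ((d : ℝ) + α) = 0
    · simp [h4]
    · field_simp
  have hI' : Integrable (fun z => H (x + z)) := hI.comp_add_left x
  rw [e]
  constructor
  · exact (hI'.comp_smul hU.ne').const_mul _
  · rw [integral_const_mul, Measure.integral_comp_smul (volume : Measure (EuclideanSpace ℝ (Fin d)))
      (fun z => H (x + z)) U, finrank_euclideanSpace_fin, integral_add_left_eq_self,
      abs_of_nonneg (by positivity), smul_eq_mul, ← mul_assoc, mul_inv_cancel₀ (by positivity),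
      one_mul]

lemma aux {α : ℝ} (hα : 0 < α) (hd : 0 < d) {D : Set (EuclideanSpace ℝ (Fin d))} (hDo : IsOpen D)
    (hDc : Convex ℝ D) (hDb : Bornology.IsBounded D) {φ : (EuclideanSpace ℝ (Fin d)) → ℝ} (hφ : Continuous φ)
    (hoff : ∀ x, x ∉ D → φ x = 0) (hnn : ∀ x, 0 ≤ φ x)
    (heq : ∀ x ∈ D, Integrable (fun y => (φ x - φ y) / ‖x - y‖ ^ ((d : ℝ) + α)) ∧
        ∫ y, (φ x - φ y) / ‖x - y‖ ^ ((d : ℝ) + α) = 1)
    {x y : (EuclideanSpace ℝ (Fin d))} {l M : ℝ} (hl0 : 0 < l) (hl1 : l < 1) (hM : 0 < M) (hx : 0 < φ x)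
    (hy : y ∈ closure D)
    (hmax : ∀ x' ∈ closure D, ∀ y' ∈ closure D,
      (l * φ x' ^ (1 / α) + (1 - l) * φ y' ^ (1 / α)) ^ α - φ (l • x' + (1 - l) • y') ≤ M)
    (hat : (l * φ x ^ (1 / α) + (1 - l) * φ y ^ (1 / α)) ^ α - φ (l • x + (1 - l) • y) = M) :
    False := by
  have hmem : ∀ z, 0 < φ z → z ∈ D := by
    intro z hz
    by_contra h
    rw [hoff z h] at hz
    exact lt_irrefl _ hz
  set v : (EuclideanSpace ℝ (Fin d)) → ℝ := fun z => φ z ^ (1 / α) with hv
  have hvc : Continuous v := hφ.rpow_const (fun z => Or.inr (by positivity))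
  have hv0 : ∀ z, 0 ≤ v z := fun z => Real.rpow_nonneg (hnn z) _
  have hvα : ∀ z, v z ^ α = φ z := by
    intro z
    simp only [hv]
    rw [← Real.rpow_mul (hnn z), one_div, inv_mul_cancel₀ hα.ne', Real.rpow_one]
  have hvpos : ∀ z, 0 < v z → z ∈ D := by
    intro z hz
    apply hmem
    rw [← hvα z]
    exact Real.rpow_pos_of_pos hz _
  have hxD := hmem x hx
  have hint : interior D = D := hDo.interior_eq
  have hcombD : ∀ x' ∈ D, ∀ y' ∈ closure D, l • x' + (1 - l) • y' ∈ D := by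
    intro x' hx' y' hy'
    have := hDc.combo_interior_closure_mem_interior (hint.symm ▸ hx') hy' hl0
      (by linarith : 0 ≤ 1 - l) (by ring)
    rwa [hint] at this
  set m := l • x + (1 - l) • y with hm
  have hmD : m ∈ D := hcombD x hxD y hy
  set U₁ := v x with hU₁
  have hU₁0 : 0 < U₁ := Real.rpow_pos_of_pos hx _
  set V := l * v x + (1 - l) * v y with hV
  have hV0 : 0 < V := by
    have : 0 ≤ (1 - l) * v y := mul_nonneg (by linarith) (hv0 y)
    have : 0 < l * v x := mul_pos hl0 hU₁0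
    linarith
  -- the comparison function
  set Φ : (EuclideanSpace ℝ (Fin d)) → ℝ := fun z => φ z + D.indicator (fun _ => M) z with hΦ
  have hΦD : ∀ z ∈ D, Φ z = φ z + M := by
    intro z hz; simp [hΦ, hz]
  have hΦ0 : ∀ z, 0 ≤ Φ z := by
    intro z
    simp only [hΦ]
    have : 0 ≤ D.indicator (fun _ => M) z := indicator_nonneg (fun _ _ => hM.le) z
    linarith [hnn z]
  have hΦm : Φ m = V ^ α := by
    rw [hΦD m hmD]
    have : V ^ α - φ m = M := hat
    linarith
  have hΦmeas : Measurable Φ :=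
    hφ.measurable.add (measurable_const.indicator hDo.measurableSet)
  have hφm : 0 < φ m := by
    -- positivity at interior points
    by_contra hcon
    have h0 : φ m = 0 := le_antisymm (not_lt.mp hcon) (hnn m)
    have h1 := (heq m hmD).2
    have h2 : ∫ y, (φ m - φ y) / ‖m - y‖ ^ ((d : ℝ) + α) ≤ 0 := by
      apply integral_nonpos
      intro z
      simp only [Pi.zero_apply]
      apply div_nonpos_of_nonpos_of_nonneg
      · rw [h0]; linarith [hnn z]
      · positivity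
    linarith
  set g : (EuclideanSpace ℝ (Fin d)) → ℝ := Dᶜ.indicator (fun z => 1 / ‖m - z‖ ^ ((d : ℝ) + α)) with hg
  have hgI : Integrable g := by
    have h1 := ((heq m hmD).1.indicator (hDo.measurableSet.compl)).const_mul (1 / φ m)
    refine h1.congr (Filter.Eventually.of_forall (fun z => ?_))
    simp only [hg]
    by_cases hz : z ∈ D
    · have hz' : z ∉ Dᶜ := fun h => h hz
      rw [indicator_of_notMem hz', indicator_of_notMem hz', mul_zero]
    · have hz' : z ∈ Dᶜ := hz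
      rw [indicator_of_mem hz', indicator_of_mem hz', hoff z hz, sub_zero]
      field_simp
  have hgpos : 0 < ∫ z, g z := by
    rw [integral_pos_iff_support_of_nonneg _ hgI]
    · haveI : Nonempty (Fin d) := ⟨⟨0, hd⟩⟩
      haveI : Nontrivial (EuclideanSpace ℝ (Fin d)) := inferInstance
      obtain ⟨r, hr⟩ := hDb.subset_closedBall (0 : (EuclideanSpace ℝ (Fin d)))
      have hne : ((Metric.closedBall (0:(EuclideanSpace ℝ (Fin d))) r)ᶜ).Nonempty := by
        by_contra h
        rw [not_nonempty_iff_eq_empty, compl_empty_iff] at h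
        apply NormedSpace.unbounded_univ ℝ (EuclideanSpace ℝ (Fin d))
        rw [← h]
        exact Metric.isBounded_closedBall
      have hpos := (Metric.isClosed_closedBall (x := (0:(EuclideanSpace ℝ (Fin d)))) (ε := r)).isOpen_compl.measure_pos
        volume hne
      refine hpos.trans_le (measure_mono (fun z hz => ?_))
      have hzD : z ∉ D := fun h => hz (hr h)
      simp only [Function.mem_support, hg]
      have hz' : z ∈ Dᶜ := hzD
      rw [indicator_of_mem hz']
      have : m - z ≠ 0 := by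
        rw [sub_ne_zero]
        rintro rfl
        exact hzD hmD
      have : 0 < ‖m - z‖ := norm_pos_iff.mpr this
      positivity
    · intro z
      simp only [hg, Pi.zero_apply]
      apply indicator_nonneg
      intro z _
      positivity
  have hdecomp : ∀ z, (Φ m - Φ z) / ‖m - z‖ ^ ((d : ℝ) + α) =
      (φ m - φ z) / ‖m - z‖ ^ ((d : ℝ) + α) + M * g z := by
    intro z
    simp only [hΦ, hg]
    by_cases hz : z ∈ D
    · have hz' : z ∉ Dᶜ := fun h => h hz
      rw [indicator_of_mem hmD, indicator_of_mem hz, indicator_of_notMem hz']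
      ring
    · have hz' : z ∈ Dᶜ := hz
      rw [indicator_of_mem hmD, indicator_of_notMem hz, indicator_of_mem hz']
      ring
  have hΦI : Integrable (fun z => (Φ m - Φ z) / ‖m - z‖ ^ ((d : ℝ) + α)) := by
    simp_rw [hdecomp]
    exact (heq m hmD).1.add (hgI.const_mul M)
  have hΦint : 1 < ∫ z, (Φ m - Φ z) / ‖m - z‖ ^ ((d : ℝ) + α) := by
    simp_rw [hdecomp]
    rw [integral_add (heq m hmD).1 (hgI.const_mul M), (heq m hmD).2, integral_const_mul]
    have := mul_pos hM hgpos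
    linarith
  -- normalised functions
  obtain ⟨B, hB⟩ : ∃ B, ∀ z, φ z ≤ B := by
    have hcpt : IsCompact (closure D) := hDb.isCompact_closure
    obtain ⟨x₀, _, hx₀⟩ := hcpt.exists_isMaxOn ⟨y, hy⟩ hφ.continuousOn
    refine ⟨φ x₀, fun z => ?_⟩
    by_cases hz : z ∈ D
    · exact hx₀ (subset_closure hz)
    · rw [hoff z hz]; exact hnn _
  have hB0 : 0 ≤ B := (hnn x).trans (hB x)
  set ψ : (EuclideanSpace ℝ (Fin d)) → ℝ := fun z => Φ (m + V • z) ^ (1 / α) / V with hψ
  have hψmeas : Measurable ψ := by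
    apply Measurable.div_const
    apply Measurable.pow_const
    exact hΦmeas.comp ((measurable_const.add (measurable_id.const_smul V)))
  have hψ0 : ∀ z, 0 ≤ ψ z := fun z => div_nonneg (Real.rpow_nonneg (hΦ0 _) _) hV0.le
  have hψα : ∀ z, 1 - ψ z ^ α = (Φ m - Φ (m + V • z)) / V ^ α := by
    intro z
    have h2 : 0 < V ^ α := Real.rpow_pos_of_pos hV0 _
    simp only [hψ]
    rw [Real.div_rpow (Real.rpow_nonneg (hΦ0 _) _) hV0.le, ← Real.rpow_mul (hΦ0 _), one_div,
      inv_mul_cancel₀ hα.ne', Real.rpow_one, hΦm]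
    field_simp
  have hψR : ∀ z, ψ z < (B + M) ^ (1 / α) / V + 1 := by
    intro z
    have h1 : Φ (m + V • z) ≤ B + M := by
      by_cases hz : m + V • z ∈ D
      · rw [hΦD _ hz]; linarith [hB (m + V • z)]
      · simp only [hΦ]
        rw [indicator_of_notMem hz, hoff _ hz]
        linarith
    have h2 : Φ (m + V • z) ^ (1 / α) ≤ (B + M) ^ (1 / α) :=
      Real.rpow_le_rpow (hΦ0 _) h1 (by positivity)
    have h3 : ψ z ≤ (B + M) ^ (1 / α) / V := div_le_div_of_nonneg_right h2 hV0.le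
    linarith
  -- generic facts for base points
  have hbase : ∀ x₀, 0 < φ x₀ → ∀ U, U = v x₀ →
      (0 < U) ∧ Measurable (fun z : (EuclideanSpace ℝ (Fin d)) => v (x₀ + U • z) / U) ∧
      (∀ z : (EuclideanSpace ℝ (Fin d)), 0 ≤ v (x₀ + U • z) / U) ∧
      (∀ z : (EuclideanSpace ℝ (Fin d)), v (x₀ + U • z) / U < B ^ (1 / α) / U + 1) ∧
      (∀ w : (EuclideanSpace ℝ (Fin d)), ∃ δ > 0, Ioo 0 δ ⊆ slc (fun z : (EuclideanSpace ℝ (Fin d)) => v (x₀ + U • z) / U) w) ∧
      Integrable (fun z : (EuclideanSpace ℝ (Fin d)) => (1 - (v (x₀ + U • z) / U) ^ α) / ‖z‖ ^ ((d : ℝ) + α)) ∧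
      ∫ z : (EuclideanSpace ℝ (Fin d)), (1 - (v (x₀ + U • z) / U) ^ α) / ‖z‖ ^ ((d : ℝ) + α) = 1 := by
    intro x₀ hx₀ U hU
    have hU0 : 0 < U := by rw [hU]; exact Real.rpow_pos_of_pos hx₀ _
    have hc : Continuous (fun z : (EuclideanSpace ℝ (Fin d)) => v (x₀ + U • z) / U) := by fun_prop
    have hUα : U ^ α = φ x₀ := by rw [hU, hvα]
    have he : ∀ z : (EuclideanSpace ℝ (Fin d)), 1 - (v (x₀ + U • z) / U) ^ α = (φ x₀ - φ (x₀ + U • z)) / U ^ α := by
      intro z
      have h2 : 0 < U ^ α := Real.rpow_pos_of_pos hU0 _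
      rw [Real.div_rpow (hv0 _) hU0.le, hvα, ← hUα]
      field_simp
    obtain ⟨s1, s2⟩ := scaling φ x₀ hU0 (heq x₀ (hmem x₀ hx₀)).1
    refine ⟨hU0, hc.measurable, fun z => div_nonneg (hv0 _) hU0.le, fun z => ?_, fun w => ?_,
      ?_, ?_⟩
    · have h2 : v (x₀ + U • z) ≤ B ^ (1 / α) :=
        Real.rpow_le_rpow (hnn _) (hB _) (by positivity)
      have h3 : v (x₀ + U • z) / U ≤ B ^ (1 / α) / U := div_le_div_of_nonneg_right h2 hU0.le
      linarith
    · have hcw : Continuous (fun t : ℝ => v (x₀ + U • (t • w)) / U - t) := by fun_prop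
      have h1 : (0:ℝ) < v (x₀ + U • ((0:ℝ) • w)) / U - 0 := by
        rw [zero_smul, smul_zero, add_zero, ← hU, sub_zero, div_self hU0.ne']
        exact one_pos
      have h2 := hcw.continuousAt.eventually (lt_mem_nhds h1)
      rw [Metric.eventually_nhds_iff] at h2
      obtain ⟨δ, hδ, h3⟩ := h2
      refine ⟨δ, hδ, fun t ht => ⟨ht.1, ?_⟩⟩
      have := h3 (y := t) (by
        rw [Real.dist_eq, sub_zero, abs_of_pos ht.1]; exact ht.2)
      linarith
    · simp_rw [he]
      exact s1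
    · simp_rw [he]
      rw [s2]
      exact (heq x₀ (hmem x₀ hx₀)).2
  obtain ⟨_, m1, n1, r1, l1, i1, j1⟩ := hbase x hx U₁ rfl
  have hψI : Integrable (fun z : (EuclideanSpace ℝ (Fin d)) => (1 - ψ z ^ α) / ‖z‖ ^ ((d : ℝ) + α)) := by
    simp_rw [hψα]
    exact (scaling Φ m hV0 hΦI).1
  have hψint : 1 < ∫ z : (EuclideanSpace ℝ (Fin d)), (1 - ψ z ^ α) / ‖z‖ ^ ((d : ℝ) + α) := by
    simp_rw [hψα]
    rw [(scaling Φ m hV0 hΦI).2]
    exact hΦint
  -- the lower bound for ψ
  have hlow : ∀ x' ∈ D, ∀ y' ∈ closure D, ∀ z : (EuclideanSpace ℝ (Fin d)), m + V • z = l • x' + (1 - l) • y' →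
      (l * v x' + (1 - l) * v y') / V ≤ ψ z := by
    intro x' hx' y' hy' z hz
    have hD' : m + V • z ∈ D := by rw [hz]; exact hcombD x' hx' y' hy'
    have h1 := hmax x' (subset_closure hx') y' hy'
    rw [← hz] at h1
    have h2 : (l * v x' + (1 - l) * v y') ^ α ≤ Φ (m + V • z) := by
      rw [hΦD _ hD']
      have : (l * v x' + (1 - l) * v y') ^ α - φ (m + V • z) ≤ M := h1
      linarith
    have h3 : 0 ≤ l * v x' + (1 - l) * v y' :=
      add_nonneg (mul_nonneg hl0.le (hv0 _)) (mul_nonneg (by linarith) (hv0 _))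
    have h4 : l * v x' + (1 - l) * v y' ≤ Φ (m + V • z) ^ (1 / α) := by
      have := Real.rpow_le_rpow (Real.rpow_nonneg h3 _) h2 (by positivity : 0 ≤ 1 / α)
      rwa [← Real.rpow_mul h3, mul_one_div_cancel hα.ne', Real.rpow_one] at this
    exact div_le_div_of_nonneg_right h4 hV0.le
  rcases (hv0 y).eq_or_lt with hy0 | hy0
  · -- the value at `y` vanishes
    have hVl : V = l * U₁ := by rw [hV, ← hy0]; ring
    have := compare (R := max (B ^ (1 / α) / U₁ + 1) ((B + M) ^ (1 / α) / V + 1)) hα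
      (p := 1) (q := 0) zero_le_one le_rfl (by norm_num) m1 m1 hψmeas n1 n1 hψ0
      (fun z => (r1 z).trans_le (le_max_left _ _)) (fun z => (r1 z).trans_le (le_max_left _ _))
      (fun z => (hψR z).trans_le (le_max_right _ _)) l1 l1 i1 i1 hψI
      (by
        intro w a b ha hb h1 h2
        rw [one_mul, zero_mul, add_zero]
        have h3 : a * U₁ < v (x + U₁ • a • w) := (lt_div_iff₀ hU₁0).mp h1
        have h4 : x + U₁ • a • w ∈ D := hvpos _ (lt_of_le_of_lt (by positivity) h3)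
        have h5 := hlow _ h4 y hy (a • w) (by
          rw [hVl, hm, smul_add, mul_smul]
          abel)
        refine lt_of_lt_of_le ?_ h5
        rw [lt_div_iff₀ hV0, ← hy0, hVl]
        have := mul_lt_mul_of_pos_left h3 hl0
        linarith)
    rw [j1] at this
    linarith
  · have hφy : 0 < φ y := by rw [← hvα y]; exact Real.rpow_pos_of_pos hy0 _
    have hyD := hmem y hφy
    set U₂ := v y with hU₂
    obtain ⟨_, m2, n2, r2, l2, i2, j2⟩ := hbase y hφy U₂ rfl
    have hpq : l * U₁ / V + (1 - l) * U₂ / V = 1 := by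
      rw [← add_div, div_self hV0.ne']
    have hl1' : 0 < 1 - l := by linarith
    have := compare (R := max (max (B ^ (1 / α) / U₁ + 1) (B ^ (1 / α) / U₂ + 1))
        ((B + M) ^ (1 / α) / V + 1)) hα
      (p := l * U₁ / V) (q := (1 - l) * U₂ / V) (by positivity) (by positivity) hpq
      m1 m2 hψmeas n1 n2 hψ0
      (fun z => (r1 z).trans_le ((le_max_left _ _).trans (le_max_left _ _)))
      (fun z => (r2 z).trans_le ((le_max_right _ _).trans (le_max_left _ _)))
      (fun z => (hψR z).trans_le (le_max_right _ _)) l1 l2 i1 i2 hψI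
      (by
        intro w a b ha hb h1 h2
        have h3 : a * U₁ < v (x + U₁ • a • w) := (lt_div_iff₀ hU₁0).mp h1
        have h3' : b * U₂ < v (y + U₂ • b • w) := (lt_div_iff₀ hy0).mp h2
        have h4 : x + U₁ • a • w ∈ D := hvpos _ (lt_of_le_of_lt (by positivity) h3)
        have h4' : y + U₂ • b • w ∈ D := hvpos _ (lt_of_le_of_lt (by positivity) h3')
        have h6 : V * (l * U₁ / V * a + (1 - l) * U₂ / V * b) =
          l * (U₁ * a) + (1 - l) * (U₂ * b) := by field_simp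
        have h5 := hlow _ h4 _ (subset_closure h4') ((l * U₁ / V * a + (1 - l) * U₂ / V * b) • w)
          (by
            rw [smul_smul V, h6, hm, smul_smul, smul_smul, add_smul, smul_add, smul_add,
              smul_smul, smul_smul]
            abel)
        refine lt_of_lt_of_le ?_ h5
        rw [lt_div_iff₀ hV0, mul_comm, h6]
        have e1 := mul_lt_mul_of_pos_left h3 hl0
        have e2 := mul_lt_mul_of_pos_left h3' hl1'
        linarith)
    rw [j1, j2, mul_one, mul_one, hpq] at this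
    linarith

theorem power_concave {α : ℝ} (hα : 0 < α) (hd : 0 < d) {D : Set (EuclideanSpace ℝ (Fin d))} (hDo : IsOpen D)
    (hDc : Convex ℝ D) (hDb : Bornology.IsBounded D) {φ : (EuclideanSpace ℝ (Fin d)) → ℝ} (hφ : Continuous φ)
    (hoff : ∀ x, x ∉ D → φ x = 0)
    (heq : ∀ x ∈ D, Integrable (fun y => (φ x - φ y) / ‖x - y‖ ^ ((d : ℝ) + α)) ∧
        ∫ y, (φ x - φ y) / ‖x - y‖ ^ ((d : ℝ) + α) = 1) :
    (∀ x, 0 ≤ φ x) ∧ ∀ x ∈ D, ∀ y ∈ D, ∀ a b : ℝ, 0 ≤ a → 0 ≤ b → a + b = 1 →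
      (a * φ x ^ (1 / α) + b * φ y ^ (1 / α)) ^ α ≤ φ (a • x + b • y) := by
  have hcpt : IsCompact (closure D) := hDb.isCompact_closure
  have hnn : ∀ x, 0 ≤ φ x := by
    intro z
    by_contra hz
    push Not at hz
    have hzD : z ∈ D := by
      by_contra h
      rw [hoff z h] at hz
      exact lt_irrefl _ hz
    obtain ⟨x, _, hx⟩ := hcpt.exists_isMinOn ⟨z, subset_closure hzD⟩ hφ.continuousOn
    have hxz : φ x ≤ φ z := hx (subset_closure hzD)
    have hx0 : φ x < 0 := hxz.trans_lt hz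
    have hxD : x ∈ D := by
      by_contra h
      rw [hoff x h] at hx0
      exact lt_irrefl _ hx0
    have hle : ∀ y, φ x ≤ φ y := by
      intro y
      by_cases hy : y ∈ D
      · exact hx (subset_closure hy)
      · rw [hoff y hy]; exact hx0.le
    have h1 := (heq x hxD).2
    have h2 : ∫ y, (φ x - φ y) / ‖x - y‖ ^ ((d : ℝ) + α) ≤ 0 := by
      apply integral_nonpos
      intro y
      simp only [Pi.zero_apply]
      apply div_nonpos_of_nonpos_of_nonneg
      · linarith [hle y]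
      · positivity
    linarith
  refine ⟨hnn, ?_⟩
  have hvα : ∀ z, (φ z ^ (1 / α)) ^ α = φ z := by
    intro z
    rw [← Real.rpow_mul (hnn z), one_div, inv_mul_cancel₀ hα.ne', Real.rpow_one]
  intro x₀ hx₀ y₀ hy₀ a₀ b₀ ha₀ hb₀ hab₀
  by_contra hcon
  push Not at hcon
  set Θ : (EuclideanSpace ℝ (Fin d)) × (EuclideanSpace ℝ (Fin d)) × ℝ → ℝ := fun s =>
    (s.2.2 * φ s.1 ^ (1 / α) + (1 - s.2.2) * φ s.2.1 ^ (1 / α)) ^ α -
      φ (s.2.2 • s.1 + (1 - s.2.2) • s.2.1) with hΘ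
  have hvc : Continuous (fun z => φ z ^ (1 / α)) :=
    hφ.rpow_const (fun z => Or.inr (by positivity))
  have hΘc : Continuous Θ := by
    apply Continuous.sub
    · apply Continuous.rpow_const _ (fun z => Or.inr hα.le)
      have h1 : Continuous (fun s : (EuclideanSpace ℝ (Fin d)) × (EuclideanSpace ℝ (Fin d)) × ℝ => φ s.1 ^ (1 / α)) := hvc.comp continuous_fst
      have h2 : Continuous (fun s : (EuclideanSpace ℝ (Fin d)) × (EuclideanSpace ℝ (Fin d)) × ℝ => φ s.2.1 ^ (1 / α)) :=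
        hvc.comp (continuous_fst.comp continuous_snd)
      fun_prop
    · apply hφ.comp
      fun_prop
  have hK : IsCompact ((closure D) ×ˢ (closure D) ×ˢ (Icc (0:ℝ) 1)) :=
    hcpt.prod (hcpt.prod isCompact_Icc)
  have hmem0 : ((x₀, y₀, a₀) : (EuclideanSpace ℝ (Fin d)) × (EuclideanSpace ℝ (Fin d)) × ℝ) ∈ (closure D) ×ˢ (closure D) ×ˢ (Icc (0:ℝ) 1) :=
    ⟨subset_closure hx₀, subset_closure hy₀, ha₀, by linarith⟩
  obtain ⟨⟨x, y, l⟩, ⟨hx, hy, hl⟩, hmax⟩ := hK.exists_isMaxOn ⟨_, hmem0⟩ hΘc.continuousOn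
  simp only at hx hy hl
  set M := Θ (x, y, l) with hM
  have hM0 : 0 < M := by
    have h1 : Θ (x₀, y₀, a₀) ≤ M := hmax hmem0
    have h2 : 0 < Θ (x₀, y₀, a₀) := by
      have hb : b₀ = 1 - a₀ := by linarith
      simp only [hΘ]
      rw [hb] at hcon
      linarith
    linarith
  have hl0 : 0 < l := by
    rcases hl.1.eq_or_lt with h | h
    · exfalso
      have : M = 0 := by
        simp only [hM, hΘ, ← h]
        rw [zero_mul, zero_add, sub_zero, one_mul, hvα, zero_smul, zero_add, one_smul, sub_self]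
      linarith
    · exact h
  have hl1 : l < 1 := by
    rcases hl.2.eq_or_lt with h | h
    · exfalso
      have : M = 0 := by
        simp only [hM, hΘ, h]
        rw [sub_self, zero_mul, add_zero, one_mul, hvα, zero_smul, add_zero, one_smul, sub_self]
      linarith
    · exact h
  have hmax' : ∀ x' ∈ closure D, ∀ y' ∈ closure D,
      (l * φ x' ^ (1 / α) + (1 - l) * φ y' ^ (1 / α)) ^ α - φ (l • x' + (1 - l) • y') ≤ M := by
    intro x' hx' y' hy'
    exact hmax (show ((x', y', l) : (EuclideanSpace ℝ (Fin d)) × (EuclideanSpace ℝ (Fin d)) × ℝ) ∈ _ from ⟨hx', hy', hl⟩)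
  rcases (hnn x).eq_or_lt with h0 | h0
  · -- then `φ y > 0`
    have hy0 : 0 < φ y := by
      rcases (hnn y).eq_or_lt with h1 | h1
      · exfalso
        have : M ≤ 0 := by
          simp only [hM, hΘ, ← h0, ← h1]
          rw [Real.zero_rpow (by positivity : (1 / α) ≠ 0), mul_zero, mul_zero, add_zero,
            Real.zero_rpow hα.ne']
          linarith [hnn (l • x + (1 - l) • y)]
        linarith
      · exact h1
    refine aux hα hd hDo hDc hDb hφ hoff hnn heq (x := y) (y := x) (l := 1 - l) (M := M)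
      (by linarith) (by linarith) hM0 hy0 hx ?_ ?_
    · intro x' hx' y' hy'
      have := hmax' y' hy' x' hx'
      have e1 : 1 - (1 - l) = l := by ring
      rw [e1, add_comm ((1 - l) * φ x' ^ (1 / α)), add_comm ((1 - l) • x')]
      exact this
    · have e1 : 1 - (1 - l) = l := by ring
      rw [e1, add_comm ((1 - l) * φ y ^ (1 / α)), add_comm ((1 - l) • y)]
  · exact aux hα hd hDo hDc hDb hφ hoff hnn heq hl0 hl1 hM0 h0 hy hmax' rfl

end Pool.Agent.Helper71.Torsion
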